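import Pool.Agent.helper84.EY.X21C
import Pool.Agent.helper49.EY.CDef
import Pool.Agent.helper2.EY.SheetI

set_option autoImplicit false
set_option linter.unusedSectionVars false
set_option linter.unusedSimpArgs false

/-!
# EY-CMul: the multiplicity of the core form (helper49's `CDef.lean`) at `e_u`, `q = 4, 5`
-/

namespace EY

namespace Core

open MvPolynomial EY.X21

noncomputable section

/-- replace a generator `f i0` by `g ≡ s (f i0)` modulo the others, `s` a unit at `p` -/
theorem mulAt_swap {σ κ : Type*} [DecidableEq κ] (f : κ → MvPolynomial σ ℂ) (i0 : κ) (s g : MvPolynomial σ ℂ)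
    (p : σ → ℂ) (hs : eval p s ≠ 0) (h : s * f i0 - g ∈ Ideal.span (f '' {i0}ᶜ)) :
    mulAt (Ideal.span (Set.range f)) p = mulAt (Ideal.span (Set.range (Function.update f i0 g))) p := by
  have h1 : Ideal.span (f '' {i0}ᶜ) ≤ Ideal.span (Set.range f) := Ideal.span_mono (Set.image_subset_range _ _)
  have h2 : Ideal.span (f '' {i0}ᶜ) ≤ Ideal.span (Set.range (Function.update f i0 g)) := by
    rw [Ideal.span_le]
    rintro _ ⟨i, hi, rfl⟩
    have h3 : f i = Function.update f i0 g i := (Function.update_of_ne hi g f).symm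
    rw [h3]
    exact Ideal.subset_span ⟨i, rfl⟩
  have h4 : (Ideal.span (Set.range f)).map
      (algebraMap (MvPolynomial σ ℂ) (Localization.AtPrime (pt p))) =
      (Ideal.span (Set.range (Function.update f i0 g))).map
      (algebraMap (MvPolynomial σ ℂ) (Localization.AtPrime (pt p))) := by
    apply le_antisymm
    · rw [Ideal.map_le_iff_le_comap, Ideal.span_le]
      rintro _ ⟨i, rfl⟩
      by_cases hi : i = i0
      · subst hi
        rw [SetLike.mem_coe, Ideal.mem_comap]
        have hu : IsUnit (algebraMap (MvPolynomial σ ℂ) (Localization.AtPrime (pt p)) s) :=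
          IsLocalization.map_units (Localization.AtPrime (pt p))
            (⟨s, fun h => hs (mem_pt.mp h)⟩ : (pt p).primeCompl)
        have h5 : algebraMap (MvPolynomial σ ℂ) (Localization.AtPrime (pt p)) (s * f i) ∈
            (Ideal.span (Set.range (Function.update f i g))).map
            (algebraMap (MvPolynomial σ ℂ) (Localization.AtPrime (pt p))) := by
          apply Ideal.mem_map_of_mem
          have h6 : s * f i = (s * f i - g) + g := by ring
          rw [h6]
          exact Ideal.add_mem _ (h2 h) (Ideal.subset_span ⟨i, Function.update_self _ _ _⟩)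
        rw [map_mul] at h5
        exact (Ideal.unit_mul_mem_iff_mem _ hu).mp h5
      · rw [SetLike.mem_coe, Ideal.mem_comap]
        exact Ideal.mem_map_of_mem _ (h2 (Ideal.subset_span ⟨i, hi, rfl⟩))
    · apply Ideal.map_mono
      rw [Ideal.span_le]
      rintro _ ⟨i, rfl⟩
      by_cases hi : i = i0
      · subst hi
        rw [Function.update_self]
        have h6 : g = s * f i - (s * f i - g) := by ring
        rw [h6]
        exact Ideal.sub_mem _ (Ideal.mul_mem_left _ _ (Ideal.subset_span ⟨i, rfl⟩)) (h1 h)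
      · rw [Function.update_of_ne hi]
        exact Ideal.subset_span ⟨i, rfl⟩
  unfold mulAt
  rw [h4]

/-- elimination of the variables `o` with `s o = none`; the others are the `j t` -/
theorem mulAt_killS {σ τ : Type*} (j : τ → σ) (s : σ → Option τ)
    (hsj : ∀ t, s (j t) = some t) (hc : ∀ o, s o = none ∨ ∃ t, o = j t) (I : Ideal (MvPolynomial σ ℂ))
    (hI : ∀ o, s o = none → X o ∈ I) :
    mulAt I (0 : σ → ℂ) = mulAt (I.map (aeval (fun o => (s o).elim (0 : MvPolynomial τ ℂ) X) :
      MvPolynomial σ ℂ →ₐ[ℂ] MvPolynomial τ ℂ)) (0 : τ → ℂ) := by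
  set φ : MvPolynomial σ ℂ →ₐ[ℂ] MvPolynomial τ ℂ := aeval (fun o => (s o).elim (0 : MvPolynomial τ ℂ) X) with hφ
  have hφ0 : ∀ o, s o = none → φ (X o) = 0 := by intro o ho; rw [hφ, aeval_X, ho]; rfl
  have hφj : ∀ t, φ (X (j t)) = X t := by intro t; rw [hφ, aeval_X, hsj]; rfl
  have hr : ∀ f : MvPolynomial τ ℂ, φ (rename j f) = f := by
    intro f
    have : φ.comp (rename j) = AlgHom.id ℂ (MvPolynomial τ ℂ) := by
      apply MvPolynomial.algHom_ext
      intro t
      rw [AlgHom.comp_apply, rename_X, hφj]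
      rfl
    exact AlgHom.congr_fun this f
  have hk : ∀ x : MvPolynomial σ ℂ, x - rename j (φ x) ∈ I := by
    intro x
    induction x using MvPolynomial.induction_on with
    | C a =>
      have : rename j (φ (C a)) = (C a : MvPolynomial σ ℂ) := by
        rw [hφ, aeval_C, MvPolynomial.algebraMap_eq, rename_C]
      rw [this, sub_self]; exact Ideal.zero_mem _
    | add p q hp hq =>
      have e : p + q - rename j (φ (p + q)) = (p - rename j (φ p)) + (q - rename j (φ q)) := by
        rw [map_add, map_add]; ring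
      rw [e]; exact Ideal.add_mem _ hp hq
    | mul_X p i hp =>
      have e : p * X i - rename j (φ (p * X i)) =
          X i * (p - rename j (φ p)) + rename j (φ p) * (X i - rename j (φ (X i))) := by
        rw [map_mul, map_mul]; ring
      rw [e]
      apply Ideal.add_mem _ (Ideal.mul_mem_left _ _ hp)
      apply Ideal.mul_mem_left
      rcases hc i with hi | ⟨t, rfl⟩
      · rw [hφ0 i hi, map_zero, sub_zero]; exact hI i hi
      · rw [hφj, rename_X, sub_self]; exact Ideal.zero_mem _
  refine mulAt_map φ (fun f => ⟨_, hr f⟩) I ?_ 0 0 ?_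
  · intro x hx
    have h1 := hk x
    rwa [hx, map_zero, sub_zero] at h1
  · intro x
    have h1 : (eval (0 : τ → ℂ)).comp φ.toRingHom = eval (0 : σ → ℂ) := by
      apply MvPolynomial.ringHom_ext
      · intro c
        simp
      · intro o
        rcases hc o with ho | ⟨t, rfl⟩
        · simp [hφ0 o ho]
        · simp [hφj]
    exact RingHom.congr_fun h1 x

variable {ι : Type} [Fintype ι] [DecidableEq ι]

/-- the unit `U = 2 + 2 δ w^(q-1) - λ` -/
def cU (ι : Type) (q : ℕ) (τ ρ δ β : ℂ) : MvPolynomial (Option (Option (Option ι))) ℂ :=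
  2 + C (2 * δ) * X none ^ (q - 1) - cLam q τ ρ δ β

/-- `D` in the chart -/
def cD (ι : Type) (q : ℕ) (τ ρ : ℂ) : MvPolynomial (Option (Option (Option ι))) ℂ :=
  DD0 q τ ρ (X (some (some none))) (X none)

/-- `Ψ` -/
def cPsi (ι : Type) (q : ℕ) (τ ρ δ β : ℂ) : MvPolynomial (Option (Option (Option ι))) ℂ :=
  - (cU ι q τ ρ δ β ^ 2 * X (some (some none)) ^ 2) + C ((q : ℂ) - 1) * C β ^ 2 * (X none * cD ι q τ ρ) +
    C β ^ 2 * (cU ι q τ ρ δ β * (X none * (C (((q : ℂ) - 1) * ((q : ℂ) - 2) * ρ) * X none ^ (q - 2)))) -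
    C (δ * ((q : ℂ) - 1)) * C β ^ 2 * (X none ^ (q - 2) * X none ^ 2 * cD ι q τ ρ)

theorem update_cSys_ne (q : ℕ) (τ ρ δ β : ℂ) (P : MvPolynomial (Option ι) ℂ)
    (g : MvPolynomial (Option (Option (Option ι))) ℂ) (k : Option (Option ι)) :
    Function.update (cSys q τ ρ δ β P) none g (some k) = cSys q τ ρ δ β P (some k) :=
  Function.update_of_ne (by simp) _ _

theorem eval_cLam_zero {q : ℕ} (hq : 3 ≤ q) (τ ρ δ β : ℂ) :
    eval (0 : Option (Option (Option ι)) → ℂ) (cLam q τ ρ δ β) = 0 := by
  unfold cLam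
  have h1 : q - 2 ≠ 0 := by omega
  simp [h1]

theorem eval_cU_zero {q : ℕ} (hq : 3 ≤ q) (τ ρ δ β : ℂ) :
    eval (0 : Option (Option (Option ι)) → ℂ) (cU ι q τ ρ δ β) = 2 := by
  unfold cU
  have h1 : q - 1 ≠ 0 := by omega
  rw [map_sub, eval_cLam_zero hq, map_add, map_ofNat, map_mul, map_pow, eval_X, Pi.zero_apply, zero_pow h1,
    mul_zero, add_zero, sub_zero]

/-- `E_y = U y + β w D` -/
theorem cSys_y (q : ℕ) (τ ρ δ β : ℂ) (P : MvPolynomial (Option ι) ℂ) :
    cSys q τ ρ δ β P (some none) = cU ι q τ ρ δ β * X (some none) + C β * (X none * cD ι q τ ρ) := by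
  simp only [cSys, cU, cD]
  ring

/-- **step A**: `U² E_u ≡ w D Ψ` modulo `E_y` -/
theorem stepA {q : ℕ} (hq : 3 ≤ q) (τ ρ δ β : ℂ) (P : MvPolynomial (Option ι) ℂ) :
    mulAt (Ideal.span (Set.range (cSys q τ ρ δ β P))) 0 =
      mulAt (Ideal.span (Set.range (Function.update (cSys q τ ρ δ β P) none
        (X none * (cD ι q τ ρ * cPsi ι q τ ρ δ β))))) 0 := by
  apply mulAt_swap _ _ (cU ι q τ ρ δ β ^ 2)
  · rw [map_pow, eval_cU_zero hq]
    norm_num
  · have h : cU ι q τ ρ δ β ^ 2 * cSys q τ ρ δ β P none - X none * (cD ι q τ ρ * cPsi ι q τ ρ δ β) =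
        (C ((q : ℂ) - 1) * (cSys q τ ρ δ β P (some none) - 2 * (C β * (X none * cD ι q τ ρ))) +
          C β * (X none * cD ι q τ ρ) * cU ι q τ ρ δ β -
          X none * (C β * cU ι q τ ρ δ β * (cD ι q τ ρ +
            C (((q : ℂ) - 1) * ((q : ℂ) - 2) * ρ) * X none ^ (q - 2))) -
          X none * (C (δ * ((q : ℂ) - 1)) * X none ^ (q - 2) *
            (cSys q τ ρ δ β P (some none) - 2 * (C β * (X none * cD ι q τ ρ))))) *
          cSys q τ ρ δ β P (some none) := by
      have hu : cSys q τ ρ δ β P none = C ((q : ℂ) - 1) * X (some none) ^ 2 +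
          C β * (X (some none) * X none * cD ι q τ ρ) - X none * cLam q τ ρ δ β := rfl
      have hl : (cLam q τ ρ δ β : MvPolynomial (Option (Option (Option ι))) ℂ) =
          X (some (some none)) ^ 2 * cD ι q τ ρ +
          C β * (X (some none) * (cD ι q τ ρ +
            C (((q : ℂ) - 1) * ((q : ℂ) - 2) * ρ) * X none ^ (q - 2))) +
          C (δ * ((q : ℂ) - 1)) * (X none ^ (q - 2) * X (some none) ^ 2) := rfl
      rw [cSys_y, hu, hl]
      unfold cPsi
      ring
    rw [h]
    exact Ideal.mul_mem_left _ _ (Ideal.subset_span ⟨some none, by simp, rfl⟩)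

/-- the system with first equation `g` and second equation `y` -/
def cY (q : ℕ) (τ ρ δ β : ℂ) (P : MvPolynomial (Option ι) ℂ) (g : MvPolynomial (Option (Option (Option ι))) ℂ) :
    Option (Option (Option ι)) → MvPolynomial (Option (Option (Option ι))) ℂ
  | none => g
  | some none => X (some none)
  | some (some j) => cSys q τ ρ δ β P (some (some j))

/-- **step B**: if `g` divides `w D`, the second equation can be replaced by `y` -/
theorem stepB {q : ℕ} (hq : 3 ≤ q) (τ ρ δ β : ℂ) (P : MvPolynomial (Option ι) ℂ)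
    (g g' : MvPolynomial (Option (Option (Option ι))) ℂ) (hg : X none * cD ι q τ ρ = g' * g) :
    mulAt (Ideal.span (Set.range (Function.update (cSys q τ ρ δ β P) none g))) 0 =
      mulAt (Ideal.span (Set.range (cY q τ ρ δ β P g))) 0 := by
  have h1 : Function.update (cY q τ ρ δ β P g) (some none) (cSys q τ ρ δ β P (some none)) =
      Function.update (cSys q τ ρ δ β P) none g := by
    funext o
    rcases o with _ | _ | j
    · rw [Function.update_of_ne (by simp), Function.update_self]; rfl
    · rw [Function.update_self, Function.update_of_ne (by simp)]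
    · rw [Function.update_of_ne (by simp), Function.update_of_ne (by simp)]; rfl
  rw [← h1]
  symm
  apply mulAt_swap _ _ (cU ι q τ ρ δ β)
  · rw [eval_cU_zero hq]
    norm_num
  · have h2 : cU ι q τ ρ δ β * cY q τ ρ δ β P g (some none) - cSys q τ ρ δ β P (some none) =
        (- (C β * g')) * cY q τ ρ δ β P g none := by
      rw [cSys_y, hg]
      change cU ι q τ ρ δ β * X (some none) - (cU ι q τ ρ δ β * X (some none) + C β * (g' * g)) =
        (- (C β * g')) * g
      ring
    rw [h2]
    exact Ideal.mul_mem_left _ _ (Ideal.subset_span ⟨none, by simp, rfl⟩)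

/-! ### sheet (i): `w = 0` -/

/-- killing `w` and `y` -/
def sWY (ι : Type) : Option (Option (Option ι)) → Option (Option ι)
  | none => none
  | some none => none
  | some (some j) => some j

theorem sheet_w {q : ℕ} (hq : 4 ≤ q) (τ ρ δ β : ℂ) (P : MvPolynomial (Option ι) ℂ) :
    mulAt (Ideal.span (Set.range (cY q τ ρ δ β P (X none)))) 0 =
      mulAt (Ideal.span (Set.range fun j : Option ι => pderiv j P - C τ * X none ^ q * X j)) 0 := by
  rw [mulAt_killS (fun j : Option ι => some (some j)) (sWY ι) (fun t => rfl) (by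
      intro o; rcases o with _ | _ | j
      · exact Or.inl rfl
      · exact Or.inl rfl
      · exact Or.inr ⟨j, rfl⟩) (Ideal.span (Set.range (cY q τ ρ δ β P (X none)))) (by
      intro o ho; rcases o with _ | _ | j
      · exact Ideal.subset_span ⟨none, rfl⟩
      · exact Ideal.subset_span ⟨some none, rfl⟩
      · exact absurd ho (by simp [sWY]))]
  set κ : MvPolynomial (Option (Option (Option ι))) ℂ →ₐ[ℂ] MvPolynomial (Option ι) ℂ :=
    aeval (fun o => (sWY ι o).elim (0 : MvPolynomial (Option ι) ℂ) X) with hκ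
  have k0 : κ (X none) = 0 := by rw [hκ, aeval_X]; rfl
  have ky : κ (X (some none)) = 0 := by rw [hκ, aeval_X]; rfl
  have kx : ∀ j, κ (X (some (some j))) = X j := by intro j; rw [hκ, aeval_X]; rfl
  have kC : ∀ r : ℂ, κ (C r) = C r := by intro r; exact κ.commutes r
  have hq1 : q - 1 ≠ 0 := by omega
  have hq2 : q - 2 ≠ 0 := by omega
  have kL : κ (cLam q τ ρ δ β) = C τ * X none ^ q := by
    unfold cLam DD0
    simp only [map_add, map_mul, map_pow, kC, k0, kx, ky, zero_pow hq2]
    have h2 : (X none : MvPolynomial (Option ι) ℂ) ^ q = X none ^ 2 * X none ^ (q - 2) := by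
      rw [← pow_add]
      congr 1
      omega
    rw [h2]
    ring
  have kr : ∀ ψ : MvPolynomial (Option ι) ℂ, κ (rename (fun j : Option ι => some (some j)) ψ) = ψ := by
    intro ψ
    rw [hκ, aeval_rename]
    have : ((fun o => (sWY ι o).elim (0 : MvPolynomial (Option ι) ℂ) X) ∘ fun j : Option ι => some (some j)) = X := rfl
    rw [this, aeval_X_left_apply]
  have e1 : ∀ j : Option ι, κ (cY q τ ρ δ β P (X none) (some (some j))) =
      pderiv j P - C τ * X none ^ q * X j := by
    intro j
    rcases j with _ | i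
    · simp only [cY, cSys, map_add, map_sub, map_mul, map_pow, kC, k0, kx, ky, kL, kr, zero_pow hq1]
      ring
    · simp only [cY, cSys, map_add, map_sub, map_mul, map_pow, kC, k0, kx, ky, kL, kr]
      ring
  congr 1
  rw [Ideal.map_span, ← Set.range_comp]
  apply le_antisymm
  · rw [Ideal.span_le]
    rintro _ ⟨o, rfl⟩
    rcases o with _ | _ | j
    · change κ (X none) ∈ Ideal.span _
      rw [k0]
      exact Ideal.zero_mem _
    · change κ (X (some none)) ∈ Ideal.span _
      rw [ky]
      exact Ideal.zero_mem _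
    · change κ (cY q τ ρ δ β P (X none) (some (some j))) ∈ Ideal.span _
      rw [e1]
      exact Ideal.subset_span ⟨j, rfl⟩
  · rw [Ideal.span_le]
    rintro _ ⟨j, rfl⟩
    change pderiv j P - C τ * X none ^ q * X j ∈ Ideal.span _
    rw [← e1]
    exact Ideal.subset_span ⟨some (some j), rfl⟩

/-! ### sheet (ii): `D = 0` -/

/-- the homogeneous system `D, y, F_b, F_z` -/
def cHom (q : ℕ) (τ ρ : ℂ) (P : MvPolynomial (Option ι) ℂ) :
    Option (Option (Option ι)) → MvPolynomial (Option (Option (Option ι))) ℂ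
  | none => cD ι q τ ρ
  | some none => X (some none)
  | some (some none) => rename (fun j => some (some j)) (pderiv none P) +
      C ((q : ℂ) * τ) * (X none * X (some (some none)) ^ (q - 1)) +
      C (2 * ρ) * (X none ^ (q - 1) * X (some (some none)))
  | some (some (some i)) => rename (fun j => some (some j)) (pderiv (some i) P)

theorem sheet_D_ideal (q : ℕ) (τ ρ δ β : ℂ) (P : MvPolynomial (Option ι) ℂ) :
    Ideal.span (Set.range (cY q τ ρ δ β P (cD ι q τ ρ))) = Ideal.span (Set.range (cHom q τ ρ P)) := by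
  have hl : (cLam q τ ρ δ β : MvPolynomial (Option (Option (Option ι))) ℂ) =
      X (some (some none)) ^ 2 * cD ι q τ ρ +
      (C β * (cD ι q τ ρ +
        C (((q : ℂ) - 1) * ((q : ℂ) - 2) * ρ) * X none ^ (q - 2)) +
      C (δ * ((q : ℂ) - 1)) * (X none ^ (q - 2) * X (some none))) * X (some none) := by
    unfold cLam cD
    ring
  -- any ideal containing `D` and `y`
  have hmem : ∀ I : Ideal (MvPolynomial (Option (Option (Option ι))) ℂ), cD ι q τ ρ ∈ I → X (some none) ∈ I →
      ∀ j : Option ι, cSys q τ ρ δ β P (some (some j)) - cHom q τ ρ P (some (some j)) ∈ I := by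
    intro I hD hy j
    have hL : (cLam q τ ρ δ β : MvPolynomial (Option (Option (Option ι))) ℂ) ∈ I := by
      rw [hl]
      exact I.add_mem (I.mul_mem_left _ hD) (I.mul_mem_left _ hy)
    rcases j with _ | i
    · have e : cSys q τ ρ δ β P (some (some none)) - cHom q τ ρ P (some (some none)) =
          (C (β * (((q : ℂ) - 2) * τ)) * (X none * X (some (some none)) ^ (q - 3))) * X (some none) -
          X (some (some none)) * cLam q τ ρ δ β := by
        simp only [cSys, cHom]
        ring
      rw [e]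
      exact I.sub_mem (I.mul_mem_left _ hy) (I.mul_mem_left _ hL)
    · have e : cSys q τ ρ δ β P (some (some (some i))) - cHom q τ ρ P (some (some (some i))) =
          - (X (some (some (some i))) * cLam q τ ρ δ β) := by
        simp only [cSys, cHom]
        ring
      rw [e]
      exact I.neg_mem (I.mul_mem_left _ hL)
  apply le_antisymm
  · have hD : cD ι q τ ρ ∈ Ideal.span (Set.range (cHom q τ ρ P)) := Ideal.subset_span ⟨none, rfl⟩
    have hy : (X (some none) : MvPolynomial (Option (Option (Option ι))) ℂ) ∈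
      Ideal.span (Set.range (cHom q τ ρ P)) := Ideal.subset_span ⟨some none, rfl⟩
    rw [Ideal.span_le]
    rintro _ ⟨o, rfl⟩
    rcases o with _ | _ | j
    · exact hD
    · exact hy
    · change cSys q τ ρ δ β P (some (some j)) ∈ Ideal.span _
      have e : cSys q τ ρ δ β P (some (some j)) =
          (cSys q τ ρ δ β P (some (some j)) - cHom q τ ρ P (some (some j))) + cHom q τ ρ P (some (some j)) := by ring
      rw [e]
      exact Ideal.add_mem _ (hmem _ hD hy j) (Ideal.subset_span ⟨some (some j), rfl⟩)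
  · have hD : cD ι q τ ρ ∈ Ideal.span (Set.range (cY q τ ρ δ β P (cD ι q τ ρ))) := Ideal.subset_span ⟨none, rfl⟩
    have hy : (X (some none) : MvPolynomial (Option (Option (Option ι))) ℂ) ∈
      Ideal.span (Set.range (cY q τ ρ δ β P (cD ι q τ ρ))) := Ideal.subset_span ⟨some none, rfl⟩
    rw [Ideal.span_le]
    rintro _ ⟨o, rfl⟩
    rcases o with _ | _ | j
    · exact hD
    · exact hy
    · change cHom q τ ρ P (some (some j)) ∈ Ideal.span _
      have e : cHom q τ ρ P (some (some j)) = cSys q τ ρ δ β P (some (some j)) -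
          (cSys q τ ρ δ β P (some (some j)) - cHom q τ ρ P (some (some j))) := by ring
      rw [e]
      exact Ideal.sub_mem _ (Ideal.subset_span ⟨some (some j), rfl⟩) (hmem _ hD hy j)

theorem sheet_D {q : ℕ} (hq : 4 ≤ q) {τ ρ : ℂ} {P : MvPolynomial (Option ι) ℂ} (hP : P.IsHomogeneous (q + 1))
    (δ β : ℂ)
    (hD : ∀ p : Option (Option ι) → ℂ, τ * p (some none) ^ (q - 2) + ((q : ℂ) - 1) * ρ * p none ^ (q - 2) = 0 →
      eval (fun j => p (some j)) (pderiv none P) + (q : ℂ) * τ * (p none * p (some none) ^ (q - 1)) +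
        2 * ρ * (p none ^ (q - 1) * p (some none)) = 0 →
      (∀ i, eval (fun j => p (some j)) (pderiv (some i) P) = 0) → p = 0) :
    mulAt (Ideal.span (Set.range (cY q τ ρ δ β P (cD ι q τ ρ)))) 0 = (q - 2) * q ^ (Fintype.card ι + 1) := by
  rw [sheet_D_ideal]
  obtain ⟨p, rfl⟩ : ∃ p, q = p + 4 := ⟨q - 4, by omega⟩
  have e1 : p + 4 - 1 = p + 3 := by omega
  have e2 : p + 4 - 2 = p + 2 := by omega
  have hr : ∀ j : Option ι, wh (fun _ : Option (Option (Option ι)) => 1) (p + 4)
      (rename (fun j => some (some j)) (pderiv j P)) := by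
    intro j
    rw [rename_eq_aeval]
    have h1 : (pderiv j P).IsHomogeneous (p + 4) := hP.pderiv
    have h2 := wh_of_isHomogeneous h1 1
    rw [one_mul] at h2
    exact wh_aeval (v := fun _ => 1) (fun o => wh_X (fun _ : Option (Option (Option ι)) => 1) (some (some o))) h2
  have hw : ∀ o, wh (fun _ : Option (Option (Option ι)) => 1) 1 (X o) := fun o => wh_X (fun _ => 1) o
  set d : Option (Option (Option ι)) → ℕ := fun o => match o with
    | none => p + 2
    | some none => 1
    | some (some none) => p + 4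
    | some (some (some _)) => p + 4 with hd
  have hd0 : ∀ o, 0 < d o := by
    intro o; rcases o with _ | _ | _ | i
    · exact Nat.succ_pos _
    · exact one_pos
    · exact Nat.succ_pos _
    · exact Nat.succ_pos _
  have hwg : ∀ o, wh (fun _ : Option (Option (Option ι)) => 1) (d o) (cHom (p + 4) τ ρ P o) := by
    intro o
    rcases o with _ | _ | _ | i
    · change wh _ (p + 2) (cD ι (p + 4) τ ρ)
      unfold cD DD0
      rw [e2]
      refine wh_add (wh_C_mul _ ?_) (wh_C_mul _ ?_)
      · have h := wh_pow (hw (some (some none))) (p + 2)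
        rwa [one_mul] at h
      · have h := wh_pow (hw none) (p + 2)
        rwa [one_mul] at h
    · exact hw (some none)
    · change wh _ (p + 4) (_ + _ + _)
      rw [e1]
      refine wh_add (wh_add (hr none) (wh_C_mul _ ?_)) (wh_C_mul _ ?_)
      · have h := wh_mul (hw none) (wh_pow (hw (some (some none))) (p + 3))
        rw [show 1 + 1 * (p + 3) = p + 4 by ring] at h
        exact h
      · have h := wh_mul (wh_pow (hw none) (p + 3)) (hw (some (some none)))
        rw [show 1 * (p + 3) + 1 = p + 4 by ring] at h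
        exact h
    · exact hr (some i)
  have hg0 : ∀ x : Option (Option (Option ι)) → ℂ, (∀ o, eval x (cHom (p + 4) τ ρ P o) = 0) → x = 0 := by
    intro x hx
    have hn := hx none
    have hy := hx (some none)
    have hb := hx (some (some none))
    have hrr : ∀ ψ : MvPolynomial (Option ι) ℂ, eval x (rename (fun j => some (some j)) ψ) =
        eval (fun j => x (some (some j))) ψ := by
      intro ψ
      rw [eval_rename]
      rfl
    simp only [cHom, cD, DD0, map_add, map_mul, map_pow, eval_X, eval_C, hrr] at hn hy hb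
    have h1 := hD (fun o : Option (Option ι) => o.elim (x none) fun j => x (some (some j))) hn hb (by
      intro i
      have h2 := hx (some (some (some i)))
      simp only [cHom, hrr] at h2
      exact h2)
    funext o
    rcases o with _ | _ | j
    · exact congrFun h1 none
    · exact hy
    · exact congrFun h1 (some j)
  have h4 := wBez (w := fun _ : Option (Option (Option ι)) => 1) (fun _ => one_pos) hd0
    hwg hg0 (f := cHom (p + 4) τ ρ P) fun o => Lead.self (hwg o).wlo
  rw [Finset.prod_const, one_pow, mul_one] at h4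
  rw [h4, Fintype.prod_option, Fintype.prod_option, Fintype.prod_option, e2]
  simp only [hd]
  rw [Finset.prod_const, Finset.card_univ, pow_succ]
  ring

/-! ### sheet (iii): `Ψ = 0` -/

/-- the weights `w : 4, y : 4(q-1), b : 2(q-1), z : 5` -/
def w3 (ι : Type) (q : ℕ) : Option (Option (Option ι)) → ℕ
  | none => 4
  | some none => 4 * (q - 1)
  | some (some none) => 2 * (q - 1)
  | some (some (some _)) => 5

def d3 (ι : Type) (q : ℕ) : Option (Option (Option ι)) → ℕ
  | none => 4 * (q - 1)
  | some none => 4 * (q - 1)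
  | some (some none) => 6 * (q - 1)
  | some (some (some _)) => 5 * q

/-- the initial forms -/
def i3 (q : ℕ) (ρ β : ℂ) (P : MvPolynomial (Option ι) ℂ) :
    Option (Option (Option ι)) → MvPolynomial (Option (Option (Option ι))) ℂ
  | none => C (-4) * X (some (some none)) ^ 2 +
      C (β ^ 2 * ρ * ((q : ℂ) - 1) * (3 * (q : ℂ) - 5)) * X none ^ (q - 1)
  | some none => C 2 * X (some none) + C (β * (((q : ℂ) - 1) * ρ)) * X none ^ (q - 1)
  | some (some none) => C (2 * ρ) * (X none ^ (q - 1) * X (some (some none)))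
  | some (some (some i)) => aeval (p0X ι) (pderiv (some i) P)

/-- initial forms of `P_j` when `b` has weight larger than `k` and `z` has weight `k` -/
theorem lead_excq {w : Option (Option (Option ι)) → ℕ} {k n : ℕ} (hb : k < w (some (some none)))
    (hz : ∀ i, w (some (some (some i))) = k) {ψ : MvPolynomial (Option ι) ℂ} (h : ψ.IsHomogeneous n) :
    Lead w (k * n) (rename (fun j => some (some j)) ψ) (aeval (p0X ι) ψ) := by
  rw [rename_eq_aeval]
  refine Lead.aeval (v := fun _ => k) ?_ (Lead.self (wh_of_isHomogeneous h k).wlo)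
  intro o
  rcases o with _ | i
  · exact Lead.of_lt (wh_X w (some (some none))).wlo hb
  · have h1 := Lead.X w (some (some (some i)))
    rw [hz i] at h1
    exact h1

theorem wh_p0q {w : Option (Option (Option ι)) → ℕ} {k n : ℕ}
    (hz : ∀ i, w (some (some (some i))) = k) {ψ : MvPolynomial (Option ι) ℂ} (h : ψ.IsHomogeneous n) :
    wh w (k * n) (aeval (p0X ι) ψ) := by
  refine wh_aeval (v := fun _ => k) ?_ (wh_of_isHomogeneous h k)
  intro o
  rcases o with _ | i
  · exact wh_zero _ _
  · have h1 := wh_X w (some (some (some i)))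
    rw [hz i] at h1
    exact h1

theorem sheet_Psi {p : ℕ} (hp : p = 0 ∨ p = 1) {τ ρ δ β : ℂ} (hρ : ρ ≠ 0) (hβ : β ≠ 0)
    {P : MvPolynomial (Option ι) ℂ} (hP : P.IsHomogeneous (p + 4 + 1))
    (hz : ∀ z : ι → ℂ, (∀ i, eval (fun o : Option ι => o.elim 0 z) (pderiv (some i) P) = 0) → z = 0) :
    mulAt (Ideal.span (Set.range (Function.update (cSys (p + 4) τ ρ δ β P) none (cPsi ι (p + 4) τ ρ δ β)))) 0 =
      3 * (p + 3) * (p + 4) ^ Fintype.card ι := by
  have e1 : p + 4 - 1 = p + 3 := by omega
  have e2 : p + 4 - 2 = p + 2 := by omega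
  have e3 : p + 4 - 3 = p + 1 := by omega
  have hq : ((p + 4 : ℕ) : ℂ) = (p : ℂ) + 4 := by push_cast; ring
  have hqn : (p : ℂ) + 3 ≠ 0 := by
    have : ((p + 3 : ℕ) : ℂ) ≠ 0 := Nat.cast_ne_zero.mpr (by omega)
    push_cast at this
    exact this
  have hqn2 : 3 * (p : ℂ) + 7 ≠ 0 := by
    have : ((3 * p + 7 : ℕ) : ℂ) ≠ 0 := Nat.cast_ne_zero.mpr (by omega)
    push_cast at this
    exact this
  have hd : ∀ j : Option ι, (pderiv j P).IsHomogeneous (p + 4) := fun j => hP.pderiv
  have w0 : wh (w3 ι (p + 4)) 4 (X none) := wh_X _ none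
  have wy : wh (w3 ι (p + 4)) (4 * (p + 3)) (X (some none)) := wh_X _ (some none)
  have wb : wh (w3 ι (p + 4)) (2 * (p + 3)) (X (some (some none))) := wh_X _ (some (some none))
  have wz : ∀ i, wh (w3 ι (p + 4)) 5 (X (some (some (some i)))) := fun i => wh_X _ (some (some (some i)))
  -- `D`
  have hD : Lead (w3 ι (p + 4)) (4 * (p + 2)) (cD ι (p + 4) τ ρ)
      (C (((p : ℂ) + 3) * ρ) * X none ^ (p + 2)) := by
    have h1 : cD ι (p + 4) τ ρ = C (((p : ℂ) + 3) * ρ) * X none ^ (p + 2) +
        C τ * X (some (some none)) ^ (p + 2) := by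
      unfold cD DD0
      rw [e2, hq]
      have : (p : ℂ) + 4 - 1 = (p : ℂ) + 3 := by ring
      rw [this]
      ring
    rw [h1]
    refine (Lead.self (wlo_C_mul _ (wlo_pow w0.wlo (p + 2)))).add_hi (wlo_C_mul _ ?_)
    refine wlo_mono ?_ (wlo_pow wb.wlo (p + 2))
    rcases hp with rfl | rfl <;> norm_num
  -- `λ`
  have hL : wlo (w3 ι (p + 4)) (4 * (p + 3) + 4 * (p + 2)) (cLam (p + 4) τ ρ δ β) := by
    unfold cLam
    rw [e2]
    refine wlo_add (wlo_add ?_ (wlo_C_mul _ ?_)) (wlo_C_mul _ ?_)
    · exact wlo_mono (by omega) (wlo_mul (wlo_pow wb.wlo 2) hD.lof)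
    · refine wlo_mul wy.wlo (wlo_add hD.lof (wlo_C_mul _ ?_))
      exact wlo_pow w0.wlo (p + 2)
    · exact wlo_mono (by omega) (wlo_mul (wlo_pow w0.wlo (p + 2)) (wlo_pow wy.wlo 2))
  have hU : Lead (w3 ι (p + 4)) 0 (cU ι (p + 4) τ ρ δ β) (C 2) := by
    have h1 : cU ι (p + 4) τ ρ δ β = C 2 + (C (2 * δ) * X none ^ (p + 3) - cLam (p + 4) τ ρ δ β) := by
      unfold cU
      rw [e1, c_two]
      ring
    rw [h1]
    refine (Lead.self (wlo_triv _)).add_hi (wlo_sub (wlo_C_mul _ ?_) ?_)
    · exact wlo_mono (by omega) (wlo_pow w0.wlo (p + 3))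
    · exact wlo_mono (by omega) hL
  have hw0 : ∀ o, 0 < w3 ι (p + 4) o := by
    intro o; rcases o with _ | _ | _ | i <;> simp [w3]
  have hd0 : ∀ o, 0 < d3 ι (p + 4) o := by
    intro o; rcases o with _ | _ | _ | i <;> simp [d3]
  have hwg : ∀ o, wh (w3 ι (p + 4)) (d3 ι (p + 4) o) (i3 (p + 4) ρ β P o) := by
    intro o; rcases o with _ | _ | _ | i
    · change wh _ (4 * (p + 3)) (_ + _)
      rw [e1]
      refine wh_add (wh_C_mul _ ?_) (wh_C_mul _ (wh_pow w0 (p + 3)))
      have h := wh_pow wb 2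
      rw [show 2 * (p + 3) * 2 = 4 * (p + 3) by ring] at h
      exact h
    · change wh _ (4 * (p + 3)) (_ + _)
      rw [e1]
      exact wh_add (wh_C_mul _ wy) (wh_C_mul _ (wh_pow w0 (p + 3)))
    · change wh _ (6 * (p + 3)) (_ * _)
      rw [e1]
      refine wh_C_mul _ ?_
      have h := wh_mul (wh_pow w0 (p + 3)) wb
      rw [show 4 * (p + 3) + 2 * (p + 3) = 6 * (p + 3) by ring] at h
      exact h
    · exact wh_p0q (k := 5) (fun _ => rfl) (hd (some i))
  have hg0 : ∀ x : Option (Option (Option ι)) → ℂ, (∀ o, eval x (i3 (p + 4) ρ β P o) = 0) → x = 0 := by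
    intro x hx
    have h1 : (fun i => x (some (some (some i)))) = 0 := by
      apply hz
      intro i
      have h2 := hx (some (some (some i)))
      change eval x (aeval (p0X ι) (pderiv (some i) P)) = 0 at h2
      rw [eval_p0X] at h2
      exact h2
    have hn := hx none
    have hy := hx (some none)
    have hb := hx (some (some none))
    simp only [i3, map_add, map_sub, map_mul, map_pow, eval_X, eval_C, e1, hq] at hn hy hb
    have hc : β ^ 2 * ρ * ((p : ℂ) + 4 - 1) * (3 * ((p : ℂ) + 4) - 5) ≠ 0 := by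
      have h3 : β ^ 2 * ρ * ((p : ℂ) + 4 - 1) * (3 * ((p : ℂ) + 4) - 5) =
          β ^ 2 * ρ * ((p : ℂ) + 3) * (3 * (p : ℂ) + 7) := by ring
      rw [h3]
      exact mul_ne_zero (mul_ne_zero (mul_ne_zero (pow_ne_zero _ hβ) hρ) hqn) hqn2
    have h3 : x none = 0 ∧ x (some (some none)) = 0 := by
      have h4 := (mul_eq_zero.mp hb).resolve_left (mul_ne_zero two_ne_zero hρ)
      rcases mul_eq_zero.mp h4 with h5 | h5
      · have h6 : x none = 0 := eq_zero_of_pow_eq_zero h5
        refine ⟨h6, ?_⟩
        rw [h5, mul_zero, add_zero] at hn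
        exact eq_zero_of_pow_eq_zero ((mul_eq_zero.mp hn).resolve_left (by norm_num))
      · rw [h5, zero_pow two_ne_zero, mul_zero, zero_add] at hn
        exact ⟨eq_zero_of_pow_eq_zero ((mul_eq_zero.mp hn).resolve_left hc), h5⟩
    have h4 : x (some none) = 0 := by
      rw [h3.1, zero_pow (by omega), mul_zero, add_zero] at hy
      exact (mul_eq_zero.mp hy).resolve_left two_ne_zero
    funext o
    rcases o with _ | _ | _ | i
    · exact h3.1
    · exact h4
    · exact h3.2
    · exact congrFun h1 i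
  have hlead : ∀ o, Lead (w3 ι (p + 4)) (d3 ι (p + 4) o)
      (Function.update (cSys (p + 4) τ ρ δ β P) none (cPsi ι (p + 4) τ ρ δ β) o) (i3 (p + 4) ρ β P o) := by
    intro o; rcases o with _ | _ | _ | i
    · rw [Function.update_self]
      change Lead _ (4 * (p + 3)) _ _
      -- the three leading terms
      have t1 : Lead (w3 ι (p + 4)) (4 * (p + 3)) (- (cU ι (p + 4) τ ρ δ β ^ 2 * X (some (some none)) ^ 2))
          (- (C 2 ^ 2 * X (some (some none)) ^ 2)) := by
        have h := ((hU.pow 2).mul ((Lead.self wb.wlo).pow 2)).neg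
        exact h.cast (by ring)
      have t2 : Lead (w3 ι (p + 4)) (4 * (p + 3)) (C (((p + 4 : ℕ) : ℂ) - 1) * C β ^ 2 * (X none * cD ι (p + 4) τ ρ))
          (C (((p + 4 : ℕ) : ℂ) - 1) * C β ^ 2 * (X none * (C (((p : ℂ) + 3) * ρ) * X none ^ (p + 2)))) := by
        have h' := ((Lead.self w0.wlo).mul hD).C_mul ((((p + 4 : ℕ) : ℂ) - 1) * β ^ 2)
        rw [C_mul, C_pow] at h'
        exact h'.cast (by ring)
      have t3 : Lead (w3 ι (p + 4)) (4 * (p + 3)) (C β ^ 2 * (cU ι (p + 4) τ ρ δ β * (X none *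
          (C ((((p + 4 : ℕ) : ℂ) - 1) * (((p + 4 : ℕ) : ℂ) - 2) * ρ) * X none ^ (p + 4 - 2)))))
          (C β ^ 2 * (C 2 * (X none *
          (C ((((p + 4 : ℕ) : ℂ) - 1) * (((p + 4 : ℕ) : ℂ) - 2) * ρ) * X none ^ (p + 2))))) := by
        rw [e2]
        have h := (hU.mul ((Lead.self w0.wlo).mul ((Lead.self (wlo_pow w0.wlo (p + 2))).C_mul
          ((((p + 4 : ℕ) : ℂ) - 1) * (((p + 4 : ℕ) : ℂ) - 2) * ρ)))).C_mul (β ^ 2)
        rw [C_pow] at h
        exact h.cast (by ring)
      have t4 : wlo (w3 ι (p + 4)) (4 * (p + 3) + 1) (C (δ * (((p + 4 : ℕ) : ℂ) - 1)) * C β ^ 2 *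
          (X none ^ (p + 4 - 2) * X none ^ 2 * cD ι (p + 4) τ ρ)) := by
        rw [e2, ← C_pow, mul_assoc]
        refine wlo_C_mul _ (wlo_C_mul _ ?_)
        exact wlo_mono (by omega) (wlo_mul (wlo_mul (wlo_pow w0.wlo (p + 2)) (wlo_pow w0.wlo 2)) hD.lof)
      have h := ((t1.add t2).add t3).add_hi (wlo_neg t4)
      have e5 : i3 (p + 4) ρ β P none = - (C 2 ^ 2 * X (some (some none)) ^ 2) +
          C (((p + 4 : ℕ) : ℂ) - 1) * C β ^ 2 * (X none * (C (((p : ℂ) + 3) * ρ) * X none ^ (p + 2))) +
          C β ^ 2 * (C 2 * (X none *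
          (C ((((p + 4 : ℕ) : ℂ) - 1) * (((p + 4 : ℕ) : ℂ) - 2) * ρ) * X none ^ (p + 2)))) := by
        simp only [i3, e1, hq]
        have c1 : (C (β ^ 2 * ρ * ((p : ℂ) + 4 - 1) * (3 * ((p : ℂ) + 4) - 5)) :
            MvPolynomial (Option (Option (Option ι))) ℂ) =
            C ((p : ℂ) + 4 - 1) * C β ^ 2 * C (((p : ℂ) + 3) * ρ) +
            C β ^ 2 * C 2 * C (((p : ℂ) + 4 - 1) * ((p : ℂ) + 4 - 2) * ρ) := by
          rw [← C_pow, ← C_mul, ← C_mul, ← C_mul, ← C_mul, ← C_add]
          congr 1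
          ring
        have c2 : (C (-4) : MvPolynomial (Option (Option (Option ι))) ℂ) = - C 2 ^ 2 := by
          rw [← C_pow, ← C_neg]
          congr 1
          norm_num
        rw [c1, c2]
        ring
      rw [← sub_eq_add_neg] at h
      rw [e5]
      exact h
    · rw [update_cSys_ne]
      change Lead _ (4 * (p + 3)) _ _
      have h1 : cSys (p + 4) τ ρ δ β P (some none) = (C 2 * X (some none) + C β * (X none * cD ι (p + 4) τ ρ)) +
          (C (2 * δ) * (X none ^ (p + 3) * X (some none)) - X (some none) * cLam (p + 4) τ ρ δ β) := by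
        simp only [cSys, cD, e1, c_two]
        ring
      have h2 : i3 (p + 4) ρ β P (some none) = C 2 * X (some none) +
          C β * (X none * (C (((p : ℂ) + 3) * ρ) * X none ^ (p + 2))) := by
        simp only [i3, e1, hq]
        have : (C (β * (((p : ℂ) + 4 - 1) * ρ)) : MvPolynomial (Option (Option (Option ι))) ℂ) =
            C β * C (((p : ℂ) + 3) * ρ) := by
          rw [← C_mul]
          congr 1
          ring
        rw [this]
        ring
      rw [h1, h2]
      refine Lead.add_hi ?_ (wlo_sub (wlo_C_mul _ ?_) ?_)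
      · refine ((Lead.self wy.wlo).C_mul 2).add ?_
        exact (((Lead.self w0.wlo).mul hD).C_mul β).cast (by ring)
      · exact wlo_mono (by omega) (wlo_mul (wlo_pow w0.wlo (p + 3)) wy.wlo)
      · exact wlo_mono (by omega) (wlo_mul wy.wlo hL)
    · rw [update_cSys_ne]
      change Lead _ (6 * (p + 3)) _ _
      have h1 : cSys (p + 4) τ ρ δ β P (some (some none)) = C (2 * ρ) * (X none ^ (p + 3) * X (some (some none))) +
          (rename (fun j => some (some j)) (pderiv none P) +
          C (((p + 4 : ℕ) : ℂ) * τ) * (X none * X (some (some none)) ^ (p + 3)) +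
          C (β * ((((p + 4 : ℕ) : ℂ) - 2) * τ)) * (X (some none) * X none * X (some (some none)) ^ (p + 1)) -
          X (some (some none)) * cLam (p + 4) τ ρ δ β) := by
        simp only [cSys, e1, e3]
        ring
      have h2 : i3 (p + 4) ρ β P (some (some none)) = C (2 * ρ) * (X none ^ (p + 3) * X (some (some none))) := by
        simp only [i3, e1]
      rw [h1, h2]
      refine Lead.add_hi ?_ (wlo_sub (wlo_add (wlo_add ?_ (wlo_C_mul _ ?_)) (wlo_C_mul _ ?_)) ?_)
      · refine Lead.C_mul _ (Lead.self ?_)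
        exact wlo_mono (by omega) (wlo_mul (wlo_pow w0.wlo (p + 3)) wb.wlo)
      · refine wlo_mono ?_ (lead_excq (w := w3 ι (p + 4)) (k := 5) ?_ (fun _ => rfl) (hd none)).lof
        · rcases hp with rfl | rfl <;> norm_num
        · change 5 < 2 * (p + 4 - 1)
          omega
      · refine wlo_mono ?_ (wlo_mul w0.wlo (wlo_pow wb.wlo (p + 3)))
        rcases hp with rfl | rfl <;> norm_num
      · refine wlo_mono ?_ (wlo_mul (wlo_mul wy.wlo w0.wlo) (wlo_pow wb.wlo (p + 1)))
        rcases hp with rfl | rfl <;> norm_num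
      · refine wlo_mono ?_ (wlo_mul wb.wlo hL)
        rcases hp with rfl | rfl <;> norm_num
    · rw [update_cSys_ne]
      change Lead _ (5 * (p + 4)) _ _
      have h1 : cSys (p + 4) τ ρ δ β P (some (some (some i))) =
          rename (fun j => some (some j)) (pderiv (some i) P) +
          (- (X (some (some (some i))) * cLam (p + 4) τ ρ δ β)) := by
        simp only [cSys]
        ring
      rw [h1]
      refine (lead_excq (w := w3 ι (p + 4)) (k := 5) ?_ (fun _ => rfl) (hd (some i))).add_hi (wlo_neg ?_)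
      · change 5 < 2 * (p + 4 - 1)
        omega
      · refine wlo_mono ?_ (wlo_mul (wz i).wlo hL)
        rcases hp with rfl | rfl <;> norm_num
  have h4 := wBez hw0 hd0 hwg hg0 hlead
  have h5 : ∏ o, w3 ι (p + 4) o = 4 * (4 * (p + 3) * (2 * (p + 3) * 5 ^ Fintype.card ι)) := by
    rw [Fintype.prod_option, Fintype.prod_option, Fintype.prod_option]
    simp [w3]
  have h6 : ∏ o, d3 ι (p + 4) o = 4 * (p + 3) * (4 * (p + 3) * (6 * (p + 3) * (5 * (p + 4)) ^ Fintype.card ι)) := by
    rw [Fintype.prod_option, Fintype.prod_option, Fintype.prod_option]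
    simp [d3]
  rw [h5, h6, mul_pow] at h4
  have h8 : 0 < 32 * (p + 3) * (p + 3) * 5 ^ Fintype.card ι := by positivity
  refine Nat.eq_of_mul_eq_mul_right h8 ?_
  rw [show 32 * (p + 3) * (p + 3) * 5 ^ Fintype.card ι = 4 * (4 * (p + 3) * (2 * (p + 3) * 5 ^ Fintype.card ι)) by
    ring, h4]
  ring

/-- **the multiplicity of the core form** at `e_u` -/
theorem core_mul {q M : ℕ} (hq : q = 4 ∨ q = 5) {P : MvPolynomial (Option ι) ℂ} {S : Finset (ι → ℂ)}
    (h : IQD q ι P S M) {τ ρ δ β : ℂ} (hτ : τ ≠ 0) (hρ : ρ ≠ 0) (hβ : β ≠ 0)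
    (hD : ∀ p : Option (Option ι) → ℂ, τ * p (some none) ^ (q - 2) + ((q : ℂ) - 1) * ρ * p none ^ (q - 2) = 0 →
      eval (fun j => p (some j)) (pderiv none P) + (q : ℂ) * τ * (p none * p (some none) ^ (q - 1)) +
        2 * ρ * (p none ^ (q - 1) * p (some none)) = 0 →
      (∀ i, eval (fun j => p (some j)) (pderiv (some i) P) = 0) → p = 0) :
    mulAt (Ideal.span (Set.range (cSys q τ ρ δ β P))) 0 = (q ^ 2 + 2 * q - 3) * q ^ Fintype.card ι + M := by
  obtain ⟨p, hp, rfl⟩ : ∃ p, (p = 0 ∨ p = 1) ∧ q = p + 4 := by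
    rcases hq with rfl | rfl
    · exact ⟨0, Or.inl rfl, rfl⟩
    · exact ⟨1, Or.inr rfl, rfl⟩
  have hz : ∀ z : ι → ℂ, (∀ i, eval (fun o : Option ι => o.elim 0 z) (pderiv (some i) P) = 0) → z = 0 := by
    intro z hz
    have h1 := h.ns (fun o : Option ι => o.elim 0 z) rfl hz
    funext i
    exact congrFun h1 (some i)
  have hW := (stepB (by omega : 3 ≤ p + 4) τ ρ δ β P (X none) (cD ι (p + 4) τ ρ) (by ring)).trans
    ((sheet_w (by omega : 4 ≤ p + 4) τ ρ δ β P).trans (special_sheet (by omega) h hτ))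
  have hDD := (stepB (by omega : 3 ≤ p + 4) τ ρ δ β P (cD ι (p + 4) τ ρ) (X none) rfl).trans
    (sheet_D (by omega : 4 ≤ p + 4) h.hom δ β hD)
  have e : p + 4 - 2 = p + 2 := by omega
  rw [e] at hDD
  have hPs := sheet_Psi (τ := τ) (δ := δ) hp hρ hβ h.hom hz
  have hup : ∀ g g' : MvPolynomial (Option (Option (Option ι))) ℂ,
      Function.update (Function.update (cSys (p + 4) τ ρ δ β P) none g) none g' =
        Function.update (cSys (p + 4) τ ρ δ β P) none g' := fun g g' => Function.update_idem _ _ _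
  have h1 := cmAdd (cSys (p + 4) τ ρ δ β P) none (cD ι (p + 4) τ ρ) (cPsi ι (p + 4) τ ρ δ β)
    (by
      rw [hDD]
      positivity) (by
      rw [hPs]
      positivity)
  rw [hDD, hPs] at h1
  have h2 := cmAdd (cSys (p + 4) τ ρ δ β P) none (X none) (cD ι (p + 4) τ ρ * cPsi ι (p + 4) τ ρ δ β)
    (by
      rw [hW]
      positivity) (by
      rw [h1]
      positivity)
  rw [stepA (by omega : 3 ≤ p + 4), h2, hW, h1]
  have e' : (p + 4) ^ 2 + 2 * (p + 4) - 3 = p ^ 2 + 10 * p + 21 := by
    have : (p + 4) ^ 2 + 2 * (p + 4) = p ^ 2 + 10 * p + 21 + 3 := by ring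
    omega
  rw [e', pow_succ]
  ring

end

end Core

end EY
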