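import Pool.Agent.helper84.EY.X20A

set_option autoImplicit false
set_option linter.unusedSectionVars false
set_option linter.unusedSimpArgs false

/-!
# EY-X20B: the form `X20`, the sheet `y = 0`, the multiplicity, finiteness and the final theorem
-/

namespace EY

namespace X20

open MvPolynomial EY.X21

noncomputable section

variable {ι : Type} [Fintype ι] [DecidableEq ι]

/-- `L` in the variables `w, b, z` -/
def LE0 (ι : Type) (a : ℂ) : MvPolynomial (Option (Option ι)) ℂ :=
  C a * X (some none) ^ 3 + C 4 * X none ^ 3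

/-- the gradient of `P + a w b³ + w⁴` in the variables `w, b, z` -/
def cr0 (P : MvPolynomial (Option ι) ℂ) (a : ℂ) : Option (Option ι) → MvPolynomial (Option (Option ι)) ℂ
  | none => LE0 ι a
  | some none => rename some (pderiv none P) + C (3 * a) * (X none * X (some none) ^ 2)
  | some (some i) => rename some (pderiv (some i) P)

/-- the system of the sheet `y = 0`, without the factor `L` of the first equation `w L` -/
def sysE0 (P : MvPolynomial (Option ι) ℂ) (a : ℂ) : Option (Option ι) → MvPolynomial (Option (Option ι)) ℂ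
  | none => X none
  | some j => cr0 P a (some j) - X (some j) * LE0 ι a

theorem mul_sheetA (P : MvPolynomial (Option ι) ℂ) (a θ : ℂ) :
    mulAt (Ideal.span (Set.range (Function.update (sys0 P a θ (g0 ι a θ)) (some none) (X (some none))))) 0 =
      mulAt (Ideal.span (Set.range (Function.update (sysE0 P a) none (X none * LE0 ι a)))) 0 := by
  have hI : (X (some none) : MvPolynomial (Option (Option (Option ι))) ℂ) ∈
      Ideal.span (Set.range (Function.update (sys0 P a θ (g0 ι a θ)) (some none) (X (some none)))) :=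
    Ideal.subset_span ⟨some none, by simp⟩
  rw [mulAt_kill (some none) (jY ι) (kY ι) rfl (by
      intro t; rcases t with _ | t <;> rfl) (by
      intro o; rcases o with _ | _ | j
      · exact Or.inr ⟨none, rfl⟩
      · exact Or.inl rfl
      · exact Or.inr ⟨some j, rfl⟩) _ hI]
  set κ : MvPolynomial (Option (Option (Option ι))) ℂ →ₐ[ℂ] MvPolynomial (Option (Option ι)) ℂ :=
    aeval (fun o => (kY ι o).elim (0 : MvPolynomial (Option (Option ι)) ℂ) X) with hκ
  have k0 : κ (X none) = X none := by rw [hκ, aeval_X]; rfl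
  have ky : κ (X (some none)) = 0 := by rw [hκ, aeval_X]; rfl
  have kx : ∀ j, κ (X (some (some j))) = X (some j) := by intro j; rw [hκ, aeval_X]; rfl
  have kC : ∀ r : ℂ, κ (C r) = C r := by intro r; exact κ.commutes r
  have kL : κ (L0 ι a) = LE0 ι a := by
    unfold L0 LE0
    simp only [map_add, map_mul, map_pow, kC, k0, kx]
  have kr : ∀ ψ : MvPolynomial (Option ι) ℂ, κ (rename (exc (Option ι)) ψ) = rename some ψ := by
    intro ψ
    rw [rename_eq_aeval some ψ, hκ, aeval_rename]
    rfl
  have e1 : κ (sys0 P a θ (g0 ι a θ) none) = - (X none * LE0 ι a) := by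
    simp only [sys0, g0, map_add, map_sub, map_mul, map_pow, kC, k0, ky, kL]
    ring
  have e2 : ∀ j : Option ι, κ (sys0 P a θ (g0 ι a θ) (some (some j))) = sysE0 P a (some j) := by
    intro j
    rcases j with _ | i
    · simp only [sys0, sysE0, cr0, map_add, map_sub, map_mul, map_pow, kC, k0, ky, kL, kx, kr]
      ring
    · simp only [sys0, sysE0, cr0, map_add, map_sub, map_mul, map_pow, kC, k0, ky, kL, kx, kr]
  congr 1
  rw [Ideal.map_span, ← Set.range_comp]
  apply le_antisymm
  · rw [Ideal.span_le]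
    rintro _ ⟨o, rfl⟩
    rcases o with _ | _ | j
    · change κ (Function.update (sys0 P a θ (g0 ι a θ)) (some none) (X (some none)) none) ∈ Ideal.span _
      rw [Function.update_of_ne (by simp), e1]
      exact neg_mem (Ideal.subset_span ⟨none, by simp⟩)
    · change κ (Function.update (sys0 P a θ (g0 ι a θ)) (some none) (X (some none)) (some none)) ∈ Ideal.span _
      rw [Function.update_self, ky]
      exact Ideal.zero_mem _
    · change κ (Function.update (sys0 P a θ (g0 ι a θ)) (some none) (X (some none)) (some (some j))) ∈ Ideal.span _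
      rw [Function.update_of_ne (by simp), e2]
      exact Ideal.subset_span ⟨some j, by simp⟩
  · rw [Ideal.span_le]
    rintro _ ⟨o, rfl⟩
    rcases o with _ | j
    · have h1 : Function.update (sysE0 P a) none (X none * LE0 ι a) none =
          - κ (Function.update (sys0 P a θ (g0 ι a θ)) (some none) (X (some none)) none) := by
        have hu : Function.update (sys0 P a θ (g0 ι a θ)) (some none) (X (some none)) none =
            sys0 P a θ (g0 ι a θ) none :=
          Function.update_of_ne (by simp) _ _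
        rw [hu, e1, Function.update_self, neg_neg]
      rw [h1]
      exact neg_mem (Ideal.subset_span ⟨none, rfl⟩)
    · have h1 : Function.update (sysE0 P a) none (X none * LE0 ι a) (some j) =
          κ (Function.update (sys0 P a θ (g0 ι a θ)) (some none) (X (some none)) (some (some j))) := by
        have hu : Function.update (sys0 P a θ (g0 ι a θ)) (some none) (X (some none)) (some (some j)) =
            sys0 P a θ (g0 ι a θ) (some (some j)) := Function.update_of_ne (by simp) _ _
        rw [hu, e2]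
        exact Function.update_of_ne (by simp) _ _
      rw [h1]
      exact Ideal.subset_span ⟨some (some j), rfl⟩

/-- the sheet `y = w = 0` -/
theorem mul_sheetW (P : MvPolynomial (Option ι) ℂ) (a : ℂ) :
    mulAt (Ideal.span (Set.range (sysE0 P a))) 0 = mulAt (Ideal.span (Set.range (spX P a))) 0 := by
  have hI : (X none : MvPolynomial (Option (Option ι)) ℂ) ∈ Ideal.span (Set.range (sysE0 P a)) :=
    Ideal.subset_span ⟨none, rfl⟩
  rw [mulAt_sheet _ hI]
  have e1 : ∀ j : Option ι, subN 0 (sysE0 P a (some j)) = spX P a j := by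
    intro j
    have hL : subN 0 (LE0 ι a) = C a * X none ^ 3 := by
      unfold LE0
      simp only [map_add, map_mul, map_pow, subN_none, subN_some]
      rw [show subN 0 (C a : MvPolynomial (Option (Option ι)) ℂ) = C a from (subN 0).commutes a]
      ring
    have hC : ∀ r : ℂ, subN 0 (C r : MvPolynomial (Option (Option ι)) ℂ) = C r := fun r => (subN 0).commutes r
    rcases j with _ | i
    · simp only [sysE0, cr0, spX, map_add, map_sub, map_mul, map_pow, hL, hC, subN_none, subN_some, subN_rename]
      ring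
    · simp only [sysE0, cr0, spX, map_add, map_sub, map_mul, map_pow, hL, hC, subN_none, subN_some, subN_rename]
      ring
  congr 1
  rw [Ideal.map_span, ← Set.range_comp]
  apply le_antisymm
  · rw [Ideal.span_le]
    rintro _ ⟨o, rfl⟩
    rcases o with _ | j
    · change subN 0 (X none) ∈ Ideal.span _
      rw [subN_none]
      exact Ideal.zero_mem _
    · change subN 0 (sysE0 P a (some j)) ∈ Ideal.span _
      rw [e1]
      exact Ideal.subset_span ⟨j, rfl⟩
  · rw [Ideal.span_le]
    rintro _ ⟨j, rfl⟩
    rw [← e1]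
    exact Ideal.subset_span ⟨some j, rfl⟩

/-- the sheet `y = L = 0` -/
theorem mul_sheetL {P : MvPolynomial (Option ι) ℂ} (hP : P.IsHomogeneous 4) {a : ℂ}
    (hF : ∀ p : Option (Option ι) → ℂ, (∀ o, eval p (cr0 P a o) = 0) → p = 0) :
    mulAt (Ideal.span (Set.range (Function.update (sysE0 P a) none (LE0 ι a)))) 0 =
      3 ^ (Fintype.card ι + 2) := by
  have hI : Ideal.span (Set.range (Function.update (sysE0 P a) none (LE0 ι a))) =
      Ideal.span (Set.range (cr0 P a)) := by
    apply le_antisymm
    · rw [Ideal.span_le]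
      rintro _ ⟨o, rfl⟩
      rcases o with _ | j
      · exact Ideal.subset_span ⟨none, by simp [cr0]⟩
      · have h3 : Function.update (sysE0 P a) none (LE0 ι a) (some j) =
            cr0 P a (some j) - X (some j) * cr0 P a none := by simp [sysE0, cr0]
        rw [h3]
        exact Ideal.sub_mem _ (Ideal.subset_span ⟨some j, rfl⟩)
          (Ideal.mul_mem_left _ _ (Ideal.subset_span ⟨none, rfl⟩))
    · rw [Ideal.span_le]
      rintro _ ⟨o, rfl⟩
      have h4 : LE0 ι a ∈ Ideal.span (Set.range (Function.update (sysE0 P a) none (LE0 ι a))) :=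
        Ideal.subset_span ⟨none, by simp⟩
      rcases o with _ | j
      · exact h4
      · have h3 : cr0 P a (some j) = Function.update (sysE0 P a) none (LE0 ι a) (some j) +
            X (some j) * LE0 ι a := by simp [sysE0]
        rw [h3]
        exact Ideal.add_mem _ (Ideal.subset_span ⟨some j, rfl⟩) (Ideal.mul_mem_left _ _ h4)
  rw [hI]
  have hr : ∀ j : Option ι, wh (fun _ : Option (Option ι) => 1) 3 (rename some (pderiv j P)) := by
    intro j
    rw [rename_eq_aeval]
    have h1 : (pderiv j P).IsHomogeneous 3 := hP.pderiv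
    have h2 := wh_of_isHomogeneous h1 1
    rw [one_mul] at h2
    exact wh_aeval (v := fun _ => 1) (fun o => wh_X (fun _ : Option (Option ι) => 1) (some o)) h2
  have hw : ∀ o, wh (fun _ : Option (Option ι) => 1) 1 (X o) := fun o => wh_X (fun _ => 1) o
  have hwg : ∀ o, wh (fun _ : Option (Option ι) => 1) 3 (cr0 P a o) := by
    intro o
    rcases o with _ | _ | i
    · exact wh_add (wh_C_mul _ (wh_pow (hw _) 3)) (wh_C_mul _ (wh_pow (hw _) 3))
    · refine wh_add (hr none) (wh_C_mul _ ?_)
      exact wh_mul (hw _) (wh_pow (hw _) 2)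
    · exact hr (some i)
  have h4 := wBez (w := fun _ : Option (Option ι) => 1) (fun _ => one_pos) (d := fun _ => 3) (fun _ => by norm_num)
    hwg hF (f := cr0 P a) fun o => Lead.self (hwg o).wlo
  rw [Finset.prod_const, Finset.prod_const, one_pow, mul_one, Finset.card_univ, Fintype.card_option,
    Fintype.card_option] at h4
  exact h4

/-- **the multiplicity of the form `X20`** at `e_u` -/
theorem mul_X20 {P : MvPolynomial (Option ι) ℂ} (hP : P.IsHomogeneous 4)
    (hz : ∀ z : ι → ℂ, (∀ i, eval (fun o : Option ι => o.elim 0 z) (pderiv (some i) P) = 0) → z = 0)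
    {a θ : ℂ} (hθ : θ ≠ 0)
    (hF : ∀ p : Option (Option ι) → ℂ, (∀ o, eval p (cr0 P a o) = 0) → p = 0)
    (hS : mulAt (Ideal.span (Set.range (spX P a))) 0 ≠ 0) :
    mulAt (affIdeal (formR (phi0 P a) (R0 ι θ)) (gram (Option (Option ι))) (some none)) 0 =
      17 * 3 ^ Fintype.card ι + mulAt (Ideal.span (Set.range (spX P a))) 0 := by
  have h1 : affIdeal (formR (phi0 P a) (R0 ι θ)) (gram (Option (Option ι))) (some none) =
      Ideal.span (Set.range (Function.update (sys0 P a θ (g0 ι a θ)) (some none)
        (X (some none) * sys0 P a θ (g0 ι a θ) (some none)))) := by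
    unfold formR
    rw [affIdeal_subN, chSys_step0]
  have hA := mul_sheetA P a θ
  have hW := mul_sheetW P a
  have hL := mul_sheetL hP hF
  have hB := mul_sheet (a := a) hP hz hθ
  have hWu : Function.update (sysE0 P a) none (X none) = sysE0 P a := by
    have : sysE0 P a none = X none := rfl
    rw [← this, Function.update_eq_self]
  have h2 := cmAdd (sysE0 P a) none (X none) (LE0 ι a) (by rw [hWu, hW]; exact hS) (by rw [hL]; positivity)
  rw [hWu, hW, hL] at h2
  have hBu : Function.update (sys0 P a θ (g0 ι a θ)) (some none) (sys0 P a θ (g0 ι a θ) (some none)) =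
      sys0 P a θ (g0 ι a θ) := Function.update_eq_self _ _
  have h3 := cmAdd (sys0 P a θ (g0 ι a θ)) (some none) (X (some none)) (sys0 P a θ (g0 ι a θ) (some none)) (by
      rw [hA, h2]
      have : 0 < 3 ^ (Fintype.card ι + 2) := by positivity
      omega) (by rw [hBu, hB]; positivity)
  rw [hBu, hB, hA, h2] at h3
  rw [h1, h3, pow_add]
  ring

/-! ### finiteness -/

theorem eval_phi0 (P : MvPolynomial (Option ι) ℂ) (a s w : ℂ) (x : Option ι → ℂ) (o : Option (Option ι)) :
    eval (vec s w x) (pderiv (some o) (phi0 P a)) =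
      eval (fun o : Option (Option ι) => o.elim w x) (cr0 P a o) := by
  have hr : ∀ ψ : MvPolynomial (Option ι) ℂ, eval (vec s w x) (rename (exs (Option ι)) ψ) = eval x ψ := by
    intro ψ
    rw [eval_rename]
    rfl
  have hr' : ∀ ψ : MvPolynomial (Option ι) ℂ,
      eval (fun o : Option (Option ι) => o.elim w x) (rename some ψ) = eval x ψ := by
    intro ψ
    rw [eval_rename]
    rfl
  rcases o with _ | _ | i
  · rw [pderiv_phi0_w]
    simp [cr0, LE0, vec]
  · rw [pderiv_phi0_b]
    simp only [cr0, map_add, map_mul, map_pow, eval_X, eval_C, hr, hr']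
    rfl
  · rw [pderiv_phi0_z, hr]
    exact (hr' _).symm

/-- GENERAL: the form `F(w, x)` with `F_w(0, x) = a b^3`, `F_j(0, x) = P_j(x)`, nonsingular, has finitely many
eigenlines -/
theorem finPsi {P : MvPolynomial (Option ι) ℂ} (hP : P.IsHomogeneous 4) (hfin : FinLines (IsEV P)) {a : ℂ}
    (φ : MvPolynomial (Option (Option (Option ι))) ℂ)
    (hns : ∀ (s w : ℂ) (x : Option ι → ℂ), (∀ o, eval (vec s w x) (pderiv (some o) φ) = 0) → w = 0 ∧ x = 0)
    (h0w : ∀ (s : ℂ) (x : Option ι → ℂ), eval (vec s 0 x) (pderiv (some none) φ) = a * x none ^ 3)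
    (h0x : ∀ (s : ℂ) (x : Option ι → ℂ) (j : Option ι), eval (vec s 0 x) (pderiv (some (some j)) φ) =
      eval x (pderiv j P)) :
    FinLines (IsEig (formC φ) (gram (Option ι))) := by
  classical
  obtain ⟨T, hT, hT'⟩ := hfin
  let nu : (Option ι → ℂ) → ℂ := fun t =>
    if h : ∃ μ : ℂ, ∀ i, eval t (pderiv i P) = μ * t i then h.choose else 0
  refine ⟨insert (vec 1 0 0) ((fun t : Option ι → ℂ => vec (a * t none ^ 3 / nu t) 0 t) '' T),
    (hT.image _).insert _, ?_⟩
  intro v hv
  by_cases hv0 : v = 0
  · exact ⟨vec 1 0 0, Or.inl rfl, 0, by rw [hv0, zero_smul]⟩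
  obtain ⟨lam, hlam⟩ := hv.exists_lam hv0
  set u := v none with hu
  set w := v (some none) with hw
  set x : Option ι → ℂ := fun i => v (some (some i)) with hx
  have hveta : v = vec u w x := (vec_eta v).symm
  rw [hveta] at hlam
  obtain ⟨μ, -, h2, h3, h4⟩ := eig_formC hlam
  have hw0 : w = 0 := by
    by_contra hne
    have hμ0 : μ = 0 := (mul_eq_zero.mp h2).resolve_right hne
    apply hne
    refine (hns (u * w + hsq x) w x ?_).1
    intro o
    rcases o with _ | i
    · rw [h3, hμ0, zero_mul]
    · rw [h4 i, hμ0, zero_mul]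
  rw [hw0, h0w] at h3
  have h4' : ∀ j, eval x (pderiv j P) = μ * x j := by
    intro j
    rw [← h4 j, hw0, h0x]
  by_cases hx0 : x = 0
  · refine ⟨vec 1 0 0, Or.inl rfl, u, ?_⟩
    rw [hveta, hw0, hx0, smul_vec, mul_one, mul_zero, smul_zero]
  obtain ⟨t, ht, d, hd⟩ := hT' x (fun i j => by rw [h4' i, h4' j]; ring)
  have hd0 : d ≠ 0 := by
    rintro rfl
    rw [zero_smul] at hd
    exact hx0 hd
  have hμ0 : μ ≠ 0 := by
    intro hμ
    apply hx0
    refine (hns 0 0 x ?_).2
    intro o
    rcases o with _ | j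
    · rw [h0w, h3, hμ, zero_mul]
    · rw [h0x, h4' j, hμ, zero_mul]
  have hsc : ∀ j, eval x (pderiv j P) = d ^ 3 * eval t (pderiv j P) := by
    intro j
    have h5 : (pderiv j P).IsHomogeneous 3 := hP.pderiv
    rw [hd]
    exact eval_scale84 h5 d t
  have hd3 : d ^ 3 ≠ 0 := pow_ne_zero _ hd0
  have hex : ∃ μ : ℂ, ∀ i, eval t (pderiv i P) = μ * t i := by
    refine ⟨(d ^ 3)⁻¹ * μ * d, fun i => ?_⟩
    have h5 := hsc i
    rw [h4' i, hd, Pi.smul_apply, smul_eq_mul] at h5
    have h6 : (d ^ 3)⁻¹ * μ * d * t i = (d ^ 3)⁻¹ * (μ * (d * t i)) := by ring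
    rw [h6, h5, ← mul_assoc, inv_mul_cancel₀ hd3, one_mul]
  have hnu : ∀ i, eval t (pderiv i P) = nu t * t i := by
    have h7 : nu t = hex.choose := dif_pos hex
    rw [h7]
    exact hex.choose_spec
  obtain ⟨i1, hi1⟩ : ∃ i, t i ≠ 0 := by
    by_contra hall
    push Not at hall
    apply hx0
    rw [hd]
    funext i
    simp [hall i]
  have hμ1 : μ = d ^ 2 * nu t := by
    have h7 := hsc i1
    rw [h4' i1, hnu i1, hd, Pi.smul_apply, smul_eq_mul] at h7
    have h8 : d * t i1 ≠ 0 := mul_ne_zero hd0 hi1
    have h9 : (μ - d ^ 2 * nu t) * (d * t i1) = 0 := by linear_combination h7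
    exact sub_eq_zero.mp ((mul_eq_zero.mp h9).resolve_right h8)
  have hnu0 : nu t ≠ 0 := by
    intro h7
    rw [h7, mul_zero] at hμ1
    exact hμ0 hμ1
  refine ⟨_, Or.inr ⟨t, ht, rfl⟩, d, ?_⟩
  rw [hveta, hw0, smul_vec, mul_zero, ← hd]
  congr 1
  rw [hd, Pi.smul_apply, smul_eq_mul, hμ1] at h3
  have h8 : d ^ 2 * (nu t * u - d * (a * t none ^ 3)) = 0 := by linear_combination -h3
  have h9 := (mul_eq_zero.mp h8).resolve_left (pow_ne_zero _ hd0)
  rw [mul_div_assoc', eq_div_iff hnu0]
  linear_combination h9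

/-- `P + a w b³ + w⁴` is nonsingular for all but finitely many `a` -/
theorem x20_good {P : MvPolynomial (Option ι) ℂ} (hP : P.IsHomogeneous 4)
    (hz : ∀ v : Option ι → ℂ, v none = 0 → (∀ i, eval v (pderiv (some i) P) = 0) → v = 0) :
    {a : ℂ | ¬ ∀ p : Option (Option ι) → ℂ, (∀ o, eval p (cr0 P a o) = 0) → p = 0}.Finite := by
  classical
  have hd : ∀ j : Option ι, (pderiv j P).IsHomogeneous 3 := fun j => hP.pderiv
  have hZ := (finLines_of_hyperplane (Set.range fun i : ι => pderiv (some i) P) (by
    rintro _ ⟨i, rfl⟩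
    exact ⟨3, hd (some i)⟩) one_pos (isHomogeneous_X ℂ (none : Option ι)) (by
    intro x hx h0
    rw [eval_X] at h0
    exact hz x h0 fun i => hx _ ⟨i, rfl⟩)).finite_chart none
  have hcube : ∀ r : ℂ, {w : ℂ | w ^ 4 = r}.Finite := by
    intro r
    refine (Finset.finite_toSet (Polynomial.nthRoots 4 r).toFinset).subset ?_
    intro w hw
    rw [Finset.mem_coe, Multiset.mem_toFinset, Polynomial.mem_nthRoots (by norm_num)]
    exact hw
  refine (hZ.biUnion fun x _ => ((hcube (eval x (pderiv none P) / 12)).image fun w => - 4 * w ^ 3)).subset ?_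
  intro a ha
  have ha' : ¬ ∀ p : Option (Option ι) → ℂ, (∀ o, eval p (cr0 P a o) = 0) → p = 0 := ha
  push Not at ha'
  obtain ⟨p, hp, hp0⟩ := ha'
  set w := p none with hw
  set b := p (some none) with hb
  have hr' : ∀ ψ : MvPolynomial (Option ι) ℂ, eval p (rename some ψ) = eval (fun j => p (some j)) ψ := by
    intro ψ
    rw [eval_rename]
    rfl
  have h1 : a * b ^ 3 + 4 * w ^ 3 = 0 := by
    have := hp none
    simp only [cr0, LE0, map_add, map_mul, map_pow, eval_X, eval_C] at this
    exact this
  have h2 : eval (fun j => p (some j)) (pderiv none P) + 3 * a * (w * b ^ 2) = 0 := by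
    have := hp (some none)
    simp only [cr0, map_add, map_mul, map_pow, eval_X, eval_C, hr'] at this
    exact this
  have h3 : ∀ i, eval (fun j => p (some j)) (pderiv (some i) P) = 0 := by
    intro i
    have := hp (some (some i))
    rw [← hr']
    exact this
  by_cases hb0 : b = 0
  · exfalso
    apply hp0
    have h4 := hz (fun j => p (some j)) hb0 h3
    have h5 : w ^ 3 = 0 := by
      rw [hb0] at h1
      have : (4 : ℂ) * w ^ 3 = 0 := by linear_combination h1
      exact (mul_eq_zero.mp this).resolve_left (by norm_num)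
    funext o
    rcases o with _ | j
    · exact eq_zero_of_pow_eq_zero h5
    · exact congrFun h4 j
  · have hbi : b⁻¹ * b = 1 := inv_mul_cancel₀ hb0
    refine Set.mem_biUnion (x := b⁻¹ • fun j => p (some j)) ⟨?_, ?_⟩ ⟨b⁻¹ * w, ?_, ?_⟩
    · rintro _ ⟨i, rfl⟩
      change eval _ (pderiv (some i) P) = 0
      rw [eval_scale84 (hd (some i)), h3 i, mul_zero]
    · exact hbi
    · change (b⁻¹ * w) ^ 4 = eval _ (pderiv none P) / 12
      rw [eval_scale84 (hd none)]
      -- b^3 * w^4 * 12 = ... : P_b = -3 a w b^2, a b^3 = -4 w^3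
      have h6 : b * eval (fun j => p (some j)) (pderiv none P) = 12 * w ^ 4 := by
        linear_combination b * h2 - 3 * w * h1
      have h7 : w ^ 4 = b * eval (fun j => p (some j)) (pderiv none P) / 12 := by
        rw [h6]; ring
      rw [mul_pow, h7]
      field_simp
    · change - 4 * (b⁻¹ * w) ^ 3 = a
      field_simp
      linear_combination -h1

/-- **X20** (`q = 3`): the multiplicity `20 · 3^K + M` -/
theorem x20 {P : MvPolynomial (Option ι) ℂ} {S : Finset (ι → ℂ)} {M : ℕ} (h : IQD 3 ι P S M)
    (hsp : ∀ t : ℂ, t ≠ 0 →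
      mulAt (Ideal.span (Set.range fun j : Option ι => pderiv j P - C t * X none ^ 3 * X j)) 0 =
        3 ^ (Fintype.card ι + 1) + M) : Rz 3 (Fintype.card ι + 4) (20 * 3 ^ Fintype.card ι + M) := by
  classical
  have hP : P.IsHomogeneous 4 := h.hom
  have hz : ∀ z : ι → ℂ, (∀ i, eval (fun o : Option ι => o.elim 0 z) (pderiv (some i) P) = 0) → z = 0 := by
    intro z hz
    have h1 := h.ns (fun o : Option ι => o.elim 0 z) rfl hz
    funext i
    exact congrFun h1 (some i)
  -- the parameter `a`
  obtain ⟨a, ha⟩ := ((x20_good hP h.ns).union (Set.finite_singleton (0 : ℂ))).infinite_compl.nonempty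
  rw [Set.mem_compl_iff, Set.mem_union, not_or, Set.mem_singleton_iff] at ha
  obtain ⟨ha1, ha0⟩ := ha
  have hF : ∀ p : Option (Option ι) → ℂ, (∀ o, eval p (cr0 P a o) = 0) → p = 0 := by
    by_contra hcon
    exact ha1 hcon
  have hspX : mulAt (Ideal.span (Set.range (spX P a))) 0 = 3 ^ (Fintype.card ι + 1) + M := by
    rw [← hsp a ha0]
    congr 3
    funext j
    unfold spX
    ring
  have hmul : ∀ θ : ℂ, θ ≠ 0 → mulAt (affIdeal (formR (phi0 P a) (R0 ι θ)) (gram (Option (Option ι)))
      (some none)) 0 = 20 * 3 ^ Fintype.card ι + M := by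
    intro θ hθ
    rw [mul_X20 hP hz hθ hF (by rw [hspX]; positivity), hspX, pow_succ]
    ring
  have hRZ : ∀ θ : ℂ, RZ (Option ι) 3 none 0 θ 0 = R0 ι θ := by
    intro θ
    unfold RZ R0
    rw [C_0]
    ring
  have hwh : wh (vw (Option ι)) (3 + 1) (phi0 P a) := by
    unfold phi0
    have hr : wh (vw (Option ι)) 4 (rename (exs (Option ι)) P) := by
      rw [rename_eq_aeval]
      have h2 := wh_of_isHomogeneous hP 1
      rw [one_mul] at h2
      exact wh_aeval (v := fun _ => 1) (fun o => wh_X (vw (Option ι)) (exs (Option ι) o)) h2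
    have w1 : wh (vw (Option ι)) 1 (X (some none)) := wh_X (vw (Option ι)) (some none)
    have w2 : wh (vw (Option ι)) 1 (X (some (some none))) := wh_X (vw (Option ι)) (some (some none))
    refine wh_add (wh_add hr (wh_C_mul _ ?_)) ?_
    · have e := wh_mul w1 (wh_pow w2 3)
      exact e
    · have e := wh_pow w1 4
      exact e
  have hns : ∀ (s w : ℂ) (x : Option ι → ℂ), (∀ o, eval (vec s w x) (pderiv (some o) (phi0 P a)) = 0) →
      w = 0 ∧ x = 0 := by
    intro s w x h
    have h1 := hF (fun o : Option (Option ι) => o.elim w x) (fun o => by rw [← eval_phi0 P a s]; exact h o)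
    exact ⟨congrFun h1 none, funext fun j => congrFun h1 (some j)⟩
  have h0w : ∀ (s : ℂ) (x : Option ι → ℂ), eval (vec s 0 x) (pderiv (some none) (phi0 P a)) = a * x none ^ 3 := by
    intro s x
    rw [eval_phi0]
    simp [cr0, LE0]
  have h0x : ∀ (s : ℂ) (x : Option ι → ℂ) (j : Option ι), eval (vec s 0 x) (pderiv (some (some j)) (phi0 P a)) =
      eval x (pderiv j P) := by
    intro s x j
    rw [eval_phi0]
    have hr' : ∀ ψ : MvPolynomial (Option ι) ℂ,
        eval (fun o : Option (Option ι) => o.elim (0 : ℂ) x) (rename some ψ) = eval x ψ := by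
      intro ψ
      rw [eval_rename]
      rfl
    rcases j with _ | i
    · simp only [cr0, map_add, map_mul, map_pow, eval_X, eval_C, hr']
      simp
    · exact (hr' _)
  have hbad := efin_finZ (q := 3) (by norm_num) hwh (finPsi hP h.fin _ hns h0w h0x) hns (h.fin.mono (by
      rintro x ⟨μ, hμ⟩
      have h4' : ∀ j, eval x (pderiv j P) = μ * x j := by
        intro j
        rw [← hμ j, h0x]
      intro i j
      rw [h4' i, h4' j]
      ring)) none a ha0 (fun x => h0w _ x) 0 (by
      intro θ hθ
      rw [hRZ, hmul θ hθ]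
      positivity)
  obtain ⟨θ, hθ⟩ := (hbad.union (Set.finite_singleton (0 : ℂ))).infinite_compl.nonempty
  rw [Set.mem_compl_iff, Set.mem_union, not_or, Set.mem_singleton_iff] at hθ
  obtain ⟨hθ1, hθ0⟩ := hθ
  have hθ2 : ProjFin {x | IsEig (formR (phi0 P a) (RZ (Option ι) 3 none 0 θ 0)) (gram (Option (Option ι))) x} := by
    by_contra hcon
    exact hθ1 hcon
  have hm := hmul θ hθ0
  rw [← hRZ] at hm
  refine rz_of_form (τ := Option (Option ι)) (by simp only [Fintype.card_option])
    (formR (phi0 P a) (RZ (Option ι) 3 none 0 θ 0)) (formR_hom (by norm_num) hwh (wh_RZ (by norm_num) none 0 θ 0))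
    hθ2 ?_ hm
  intro g hg
  exact eval_eq_zero_of_pos (by rw [hm]; positivity) hg

end

end X20

end EY
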