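import Pool.Agent.helper84.EY.X21C
import Pool.Agent.helper35.EY.FinZ
import Pool.Agent.helper81.EY.IDef

set_option autoImplicit false
set_option linter.unusedSectionVars false
set_option linter.unusedSimpArgs false

/-!
# EY-X21D: the form `X21`, finiteness and the final theorem
-/

namespace EY

namespace X21

open MvPolynomial

noncomputable section

variable {ι : Type} [Fintype ι] [DecidableEq ι]

theorem eval_phiX (P : MvPolynomial (Option ι) ℂ) (a c s w : ℂ) (x : Option ι → ℂ) (o : Option (Option ι)) :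
    eval (vec s w x) (pderiv (some o) (phiX P a c)) =
      eval (fun o : Option (Option ι) => o.elim w x) (crX P a c o) := by
  have hr : ∀ ψ : MvPolynomial (Option ι) ℂ, eval (vec s w x) (rename (exs (Option ι)) ψ) = eval x ψ := by
    intro ψ
    rw [eval_rename]
    rfl
  have hr' : ∀ ψ : MvPolynomial (Option ι) ℂ,
      eval (fun o : Option (Option ι) => o.elim w x) (rename some ψ) = eval x ψ := by
    intro ψ
    rw [eval_rename]
    rfl
  rcases o with _ | _ | i
  · rw [pderiv_phiX_w]
    simp [crX, LE, vec]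
  · rw [pderiv_phiX_b]
    simp only [crX, map_add, map_mul, map_pow, eval_X, eval_C, hr, hr']
    rfl
  · rw [pderiv_phiX_z, hr]
    exact (hr' _).symm

theorem eval_scale84 {σ : Type*} [Fintype σ] {n : ℕ} {ψ : MvPolynomial σ ℂ} (h : ψ.IsHomogeneous n) (c : ℂ)
    (x : σ → ℂ) : eval (c • x) ψ = c ^ n * eval x ψ := by
  have h1 := eval_wh (wh_of_isHomogeneous h 1) c x
  rw [one_mul] at h1
  rw [← h1]
  congr 2
  funext i
  simp

/-- the form `P + a w b³ + c w³ b` has finitely many eigenlines -/
theorem finPsiX {P : MvPolynomial (Option ι) ℂ} (hP : P.IsHomogeneous 4) (hfin : FinLines (IsEV P)) {a c : ℂ}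
    (hF : ∀ p : Option (Option ι) → ℂ, (∀ o, eval p (crX P a c o) = 0) → p = 0) :
    FinLines (IsEig (formC (phiX P a c)) (gram (Option ι))) := by
  classical
  obtain ⟨T, hT, hT'⟩ := hfin
  let nu : (Option ι → ℂ) → ℂ := fun t =>
    if h : ∃ μ : ℂ, ∀ i, eval t (pderiv i P) = μ * t i then h.choose else 0
  have hns : ∀ (s w : ℂ) (x : Option ι → ℂ), (∀ o, eval (vec s w x) (pderiv (some o) (phiX P a c)) = 0) →
      w = 0 ∧ x = 0 := by
    intro s w x h
    have h1 := hF (fun o : Option (Option ι) => o.elim w x) (fun o => by rw [← eval_phiX P a c s]; exact h o)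
    exact ⟨congrFun h1 none, funext fun j => congrFun h1 (some j)⟩
  refine ⟨insert (vec 1 0 0) ((fun t : Option ι → ℂ => vec (a * t none ^ 3 / nu t) 0 t) '' T),
    (hT.image _).insert _, ?_⟩
  intro v hv
  by_cases hv0 : v = 0
  · exact ⟨vec 1 0 0, Or.inl rfl, 0, by rw [hv0, zero_smul]⟩
  obtain ⟨lam, hlam⟩ := hv.exists_lam hv0
  set u := v none with hu
  set w := v (some none) with hw
  set x : Option ι → ℂ := fun i => v (some (some i)) with hx
  have hveta : v = vec u w x := (vec_eta v).symm
  rw [hveta] at hlam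
  obtain ⟨μ, -, h2, h3, h4⟩ := eig_formC hlam
  have hw0 : w = 0 := by
    by_contra hne
    have hμ0 : μ = 0 := (mul_eq_zero.mp h2).resolve_right hne
    apply hne
    refine (hns (u * w + hsq x) w x ?_).1
    intro o
    rcases o with _ | i
    · rw [h3, hμ0, zero_mul]
    · rw [h4 i, hμ0, zero_mul]
  rw [eval_phiX, hw0] at h3
  have h3' : a * x none ^ 3 = μ * u := by
    rw [← h3]
    simp [crX, LE]
  have h4' : ∀ j, eval x (pderiv j P) = μ * x j := by
    intro j
    rw [← h4 j, eval_phiX, hw0]
    have hr' : ∀ ψ : MvPolynomial (Option ι) ℂ,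
        eval (fun o : Option (Option ι) => o.elim (0 : ℂ) x) (rename some ψ) = eval x ψ := by
      intro ψ
      rw [eval_rename]
      rfl
    rcases j with _ | i
    · simp only [crX, map_add, map_mul, map_pow, eval_X, eval_C, hr']
      simp
    · exact (hr' _).symm
  by_cases hx0 : x = 0
  · refine ⟨vec 1 0 0, Or.inl rfl, u, ?_⟩
    rw [hveta, hw0, hx0, smul_vec, mul_one, mul_zero, smul_zero]
  obtain ⟨t, ht, d, hd⟩ := hT' x (fun i j => by rw [h4' i, h4' j]; ring)
  have hd0 : d ≠ 0 := by
    rintro rfl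
    rw [zero_smul] at hd
    exact hx0 hd
  have hμ0 : μ ≠ 0 := by
    intro hμ
    apply hx0
    refine (hns 0 0 x ?_).2
    intro o
    rw [eval_phiX]
    have hr' : ∀ ψ : MvPolynomial (Option ι) ℂ,
        eval (fun o : Option (Option ι) => o.elim (0 : ℂ) x) (rename some ψ) = eval x ψ := by
      intro ψ
      rw [eval_rename]
      rfl
    rcases o with _ | _ | i
    · rw [hμ, zero_mul] at h3'
      simp only [crX, LE, map_add, map_mul, map_pow, eval_X, eval_C]
      simpa using h3'
    · simp only [crX, map_add, map_mul, map_pow, eval_X, eval_C, hr']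
      rw [h4' none, hμ]
      simp
    · change eval _ (rename some (pderiv (some i) P)) = 0
      rw [hr', h4' (some i), hμ, zero_mul]
  have hsc : ∀ j, eval x (pderiv j P) = d ^ 3 * eval t (pderiv j P) := by
    intro j
    have h5 : (pderiv j P).IsHomogeneous 3 := hP.pderiv
    rw [hd]
    exact eval_scale84 h5 d t
  have hd3 : d ^ 3 ≠ 0 := pow_ne_zero _ hd0
  have hex : ∃ μ : ℂ, ∀ i, eval t (pderiv i P) = μ * t i := by
    refine ⟨(d ^ 3)⁻¹ * μ * d, fun i => ?_⟩
    have h5 := hsc i
    rw [h4' i, hd, Pi.smul_apply, smul_eq_mul] at h5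
    have h6 : (d ^ 3)⁻¹ * μ * d * t i = (d ^ 3)⁻¹ * (μ * (d * t i)) := by ring
    rw [h6, h5, ← mul_assoc, inv_mul_cancel₀ hd3, one_mul]
  have hnu : ∀ i, eval t (pderiv i P) = nu t * t i := by
    have h7 : nu t = hex.choose := dif_pos hex
    rw [h7]
    exact hex.choose_spec
  obtain ⟨i1, hi1⟩ : ∃ i, t i ≠ 0 := by
    by_contra hall
    push Not at hall
    apply hx0
    rw [hd]
    funext i
    simp [hall i]
  have hμ1 : μ = d ^ 2 * nu t := by
    have h7 := hsc i1
    rw [h4' i1, hnu i1, hd, Pi.smul_apply, smul_eq_mul] at h7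
    have h8 : d * t i1 ≠ 0 := mul_ne_zero hd0 hi1
    have h9 : (μ - d ^ 2 * nu t) * (d * t i1) = 0 := by linear_combination h7
    exact sub_eq_zero.mp ((mul_eq_zero.mp h9).resolve_right h8)
  have hnu0 : nu t ≠ 0 := by
    intro h7
    rw [h7, mul_zero] at hμ1
    exact hμ0 hμ1
  refine ⟨_, Or.inr ⟨t, ht, rfl⟩, d, ?_⟩
  rw [hveta, hw0, smul_vec, mul_zero, ← hd]
  congr 1
  rw [hd, Pi.smul_apply, smul_eq_mul, hμ1] at h3'
  have h8 : d ^ 2 * (nu t * u - d * (a * t none ^ 3)) = 0 := by linear_combination -h3'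
  have h9 := (mul_eq_zero.mp h8).resolve_left (pow_ne_zero _ hd0)
  rw [mul_div_assoc', eq_div_iff hnu0]
  linear_combination h9

/-- `P + a w b³ + w³ b` is nonsingular for all but finitely many `a` -/
theorem x21_good {P : MvPolynomial (Option ι) ℂ} (hP : P.IsHomogeneous 4)
    (hz : ∀ v : Option ι → ℂ, v none = 0 → (∀ i, eval v (pderiv (some i) P) = 0) → v = 0) :
    {a : ℂ | ¬ ∀ p : Option (Option ι) → ℂ, (∀ o, eval p (crX P a 1 o) = 0) → p = 0}.Finite := by
  classical
  have hd : ∀ j : Option ι, (pderiv j P).IsHomogeneous 3 := fun j => hP.pderiv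
  have hZ := (finLines_of_hyperplane (Set.range fun i : ι => pderiv (some i) P) (by
    rintro _ ⟨i, rfl⟩
    exact ⟨3, hd (some i)⟩) one_pos (isHomogeneous_X ℂ (none : Option ι)) (by
    intro x hx h0
    rw [eval_X] at h0
    exact hz x h0 fun i => hx _ ⟨i, rfl⟩)).finite_chart none
  have hcube : ∀ r : ℂ, {w : ℂ | w ^ 3 = r}.Finite := by
    intro r
    refine (Finset.finite_toSet (Polynomial.nthRoots 3 r).toFinset).subset ?_
    intro w hw
    rw [Finset.mem_coe, Multiset.mem_toFinset, Polynomial.mem_nthRoots (by norm_num)]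
    exact hw
  refine (hZ.biUnion fun x _ => ((hcube (eval x (pderiv none P) / 8)).image fun w => - 3 * w ^ 2)).subset ?_
  intro a ha
  have ha' : ¬ ∀ p : Option (Option ι) → ℂ, (∀ o, eval p (crX P a 1 o) = 0) → p = 0 := ha
  push Not at ha'
  obtain ⟨p, hp, hp0⟩ := ha'
  set w := p none with hw
  set b := p (some none) with hb
  have hr' : ∀ ψ : MvPolynomial (Option ι) ℂ, eval p (rename some ψ) = eval (fun j => p (some j)) ψ := by
    intro ψ
    rw [eval_rename]
    rfl
  have h1 : a * b ^ 3 + 3 * (w ^ 2 * b) = 0 := by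
    have := hp none
    simp only [crX, LE, map_add, map_mul, map_pow, eval_X, eval_C, mul_one] at this
    rw [← hw, ← hb] at this
    simpa using this
  have h2 : eval (fun j => p (some j)) (pderiv none P) + 3 * a * (w * b ^ 2) + w ^ 3 = 0 := by
    have := hp (some none)
    simp only [crX, map_add, map_mul, map_pow, eval_X, eval_C, hr', one_mul] at this
    rw [← hw, ← hb] at this
    simpa using this
  have h3 : ∀ i, eval (fun j => p (some j)) (pderiv (some i) P) = 0 := by
    intro i
    have := hp (some (some i))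
    rw [← hr']
    exact this
  by_cases hb0 : b = 0
  · exfalso
    apply hp0
    have h4 := hz (fun j => p (some j)) hb0 h3
    rw [h4, eval_zero_of_hom (by norm_num) (hd none), hb0] at h2
    have h5 : w ^ 3 = 0 := by linear_combination h2
    funext o
    rcases o with _ | j
    · exact eq_zero_of_pow_eq_zero h5
    · exact congrFun h4 j
  · have hbi : b⁻¹ * b = 1 := inv_mul_cancel₀ hb0
    refine Set.mem_biUnion (x := b⁻¹ • fun j => p (some j)) ⟨?_, ?_⟩ ⟨b⁻¹ * w, ?_, ?_⟩
    · rintro _ ⟨i, rfl⟩
      change eval _ (pderiv (some i) P) = 0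
      rw [eval_scale84 (hd (some i)), h3 i, mul_zero]
    · exact hbi
    · change (b⁻¹ * w) ^ 3 = eval _ (pderiv none P) / 8
      rw [eval_scale84 (hd none)]
      have h5 : a * b ^ 2 + 3 * w ^ 2 = 0 := by
        have : b * (a * b ^ 2 + 3 * w ^ 2) = 0 := by linear_combination h1
        exact (mul_eq_zero.mp this).resolve_left hb0
      have h6 : eval (fun j => p (some j)) (pderiv none P) = 8 * w ^ 3 := by
        linear_combination h2 - 3 * w * h5
      rw [h6]
      ring
    · change - 3 * (b⁻¹ * w) ^ 2 = a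
      have h5 : a * b ^ 2 + 3 * w ^ 2 = 0 := by
        have : b * (a * b ^ 2 + 3 * w ^ 2) = 0 := by linear_combination h1
        exact (mul_eq_zero.mp this).resolve_left hb0
      field_simp
      linear_combination -h5

/-- **X21** (`q = 3`): the multiplicity `21 · 3^K + M` -/
theorem x21 {P : MvPolynomial (Option ι) ℂ} {S : Finset (ι → ℂ)} {M : ℕ} (h : IQD 3 ι P S M)
    (hsp : ∀ t : ℂ, t ≠ 0 →
      mulAt (Ideal.span (Set.range fun j : Option ι => pderiv j P - C t * X none ^ 3 * X j)) 0 =
        3 ^ (Fintype.card ι + 1) + M) : Rz 3 (Fintype.card ι + 4) (21 * 3 ^ Fintype.card ι + M) := by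
  classical
  have hP : P.IsHomogeneous 4 := h.hom
  have hz : ∀ z : ι → ℂ, (∀ i, eval (fun o : Option ι => o.elim 0 z) (pderiv (some i) P) = 0) → z = 0 := by
    intro z hz
    have h1 := h.ns (fun o : Option ι => o.elim 0 z) rfl hz
    funext i
    exact congrFun h1 (some i)
  -- the parameter `a`
  obtain ⟨a, ha⟩ := ((x21_good hP h.ns).union (Set.finite_singleton (0 : ℂ))).infinite_compl.nonempty
  rw [Set.mem_compl_iff, Set.mem_union, not_or, Set.mem_singleton_iff] at ha
  obtain ⟨ha1, ha0⟩ := ha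
  have hF : ∀ p : Option (Option ι) → ℂ, (∀ o, eval p (crX P a 1 o) = 0) → p = 0 := by
    by_contra hcon
    exact ha1 hcon
  have hspX : mulAt (Ideal.span (Set.range (spX P a))) 0 = 3 ^ (Fintype.card ι + 1) + M := by
    rw [← hsp a ha0]
    congr 3
    funext j
    unfold spX
    ring
  have hmul : ∀ θ : ℂ, θ ≠ 0 → mulAt (affIdeal (formR (phiX P a 1) (RX ι θ 1)) (gram (Option (Option ι)))
      (some none)) 0 = 21 * 3 ^ Fintype.card ι + M := by
    intro θ hθ
    rw [mul_X21 hP hz one_ne_zero hθ one_ne_zero hF (by rw [hspX]; positivity), hspX, pow_succ]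
    ring
  have hRZ : ∀ θ : ℂ, RZ (Option ι) 3 none 0 θ 1 = RX ι θ 1 := by
    intro θ
    unfold RZ RX
    rw [C_0]
    ring
  have hwh : wh (vw (Option ι)) (3 + 1) (phiX P a 1) := by
    unfold phiX
    have hr : wh (vw (Option ι)) 4 (rename (exs (Option ι)) P) := by
      rw [rename_eq_aeval]
      have h2 := wh_of_isHomogeneous hP 1
      rw [one_mul] at h2
      exact wh_aeval (v := fun _ => 1) (fun o => wh_X (vw (Option ι)) (exs (Option ι) o)) h2
    have w1 : wh (vw (Option ι)) 1 (X (some none)) := wh_X (vw (Option ι)) (some none)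
    have w2 : wh (vw (Option ι)) 1 (X (some (some none))) := wh_X (vw (Option ι)) (some (some none))
    refine wh_add (wh_add hr (wh_C_mul _ ?_)) (wh_C_mul _ ?_)
    · have e := wh_mul w1 (wh_pow w2 3)
      exact e
    · have e := wh_mul (wh_pow w1 3) w2
      exact e
  have hns : ∀ (s w : ℂ) (x : Option ι → ℂ), (∀ o, eval (vec s w x) (pderiv (some o) (phiX P a 1)) = 0) →
      w = 0 ∧ x = 0 := by
    intro s w x h
    have h1 := hF (fun o : Option (Option ι) => o.elim w x) (fun o => by rw [← eval_phiX P a 1 s]; exact h o)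
    exact ⟨congrFun h1 none, funext fun j => congrFun h1 (some j)⟩
  have hbad := efin_finZ (q := 3) (by norm_num) hwh (finPsiX hP h.fin hF) hns (h.fin.mono (by
      rintro x ⟨μ, hμ⟩
      have h4' : ∀ j, eval x (pderiv j P) = μ * x j := by
        intro j
        rw [← hμ j, eval_phiX]
        have hr' : ∀ ψ : MvPolynomial (Option ι) ℂ,
            eval (fun o : Option (Option ι) => o.elim (0 : ℂ) x) (rename some ψ) = eval x ψ := by
          intro ψ
          rw [eval_rename]
          rfl
        rcases j with _ | i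
        · simp only [crX, map_add, map_mul, map_pow, eval_X, eval_C, hr']
          simp
        · exact (hr' _).symm
      intro i j
      rw [h4' i, h4' j]
      ring)) none a ha0 (by
      intro x
      rw [eval_phiX]
      simp [crX, LE]) 1 (by
      intro θ hθ
      rw [hRZ, hmul θ hθ]
      positivity)
  obtain ⟨θ, hθ⟩ := (hbad.union (Set.finite_singleton (0 : ℂ))).infinite_compl.nonempty
  rw [Set.mem_compl_iff, Set.mem_union, not_or, Set.mem_singleton_iff] at hθ
  obtain ⟨hθ1, hθ0⟩ := hθ
  have hθ2 : ProjFin {x | IsEig (formR (phiX P a 1) (RZ (Option ι) 3 none 0 θ 1)) (gram (Option (Option ι))) x} := by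
    by_contra hcon
    exact hθ1 hcon
  have hm := hmul θ hθ0
  rw [← hRZ] at hm
  refine rz_of_form (τ := Option (Option ι)) (by simp only [Fintype.card_option])
    (formR (phiX P a 1) (RZ (Option ι) 3 none 0 θ 1)) (formR_hom (by norm_num) hwh (wh_RZ (by norm_num) none 0 θ 1))
    hθ2 ?_ hm
  intro g hg
  exact eval_eq_zero_of_pos (by rw [hm]; positivity) hg

end

end X21

end EY
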