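import Pool.Agent.helper84.EY.X21D

set_option autoImplicit false
set_option linter.unusedSectionVars false
set_option linter.unusedSimpArgs false

/-!
# EY-X20A: the form `X20` (`q = 3`): `f = P(b,z) + a w b³ + w⁴ + θ u b y²`, the chart equations and the sheets `y ≠ 0`
-/

namespace EY

namespace X20

open MvPolynomial EY.X21

noncomputable section

variable {ι : Type} [Fintype ι] [DecidableEq ι]

theorem C_four' {σ : Type*} : (C 4 : MvPolynomial σ ℂ) = 4 := map_ofNat C 4

/-- `P + a w b³ + w⁴` -/
def phi0 (P : MvPolynomial (Option ι) ℂ) (a : ℂ) : MvPolynomial (Option (Option (Option ι))) ℂ :=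
  rename (exs (Option ι)) P + C a * (X (some none) * X (some (some none)) ^ 3) + X (some none) ^ 4

/-- `θ u b` -/
def R0 (ι : Type) (θ : ℂ) : MvPolynomial (Option (Option (Option (Option (Option ι))))) ℂ :=
  C θ * (X (some none) * X (some (some (some (some none)))))

theorem pderiv_phi0_w (P : MvPolynomial (Option ι) ℂ) (a : ℂ) : pderiv (some none) (phi0 P a) =
    C a * X (some (some none)) ^ 3 + C 4 * X (some none) ^ 3 := by
  unfold phi0
  rw [map_add, map_add, pderiv_exs_w, C_four']
  simp [pderiv_X, Derivation.leibniz, Derivation.leibniz_pow]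

theorem pderiv_phi0_b (P : MvPolynomial (Option ι) ℂ) (a : ℂ) : pderiv (some (some none)) (phi0 P a) =
    rename (exs (Option ι)) (pderiv none P) + C (3 * a) * (X (some none) * X (some (some none)) ^ 2) := by
  unfold phi0
  rw [map_add, map_add, pderiv_exs_x, C_mul, C_three']
  simp [pderiv_X, Derivation.leibniz, Derivation.leibniz_pow]
  ring

theorem pderiv_phi0_z (P : MvPolynomial (Option ι) ℂ) (a : ℂ) (i : ι) :
    pderiv (some (some (some i))) (phi0 P a) = rename (exs (Option ι)) (pderiv (some i) P) := by
  unfold phi0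
  rw [map_add, map_add, pderiv_exs_x]
  simp [pderiv_X, Derivation.leibniz, Derivation.leibniz_pow]

/-- `L = a b³ + 4 w³` in the chart -/
def L0 (ι : Type) (a : ℂ) : MvPolynomial (Option (Option (Option ι))) ℂ :=
  C a * X (some (some none)) ^ 3 + C 4 * X none ^ 3

/-- the equations in the chart `u = 1` (without the factor `y` in the equation of `y`), `g` is the first one -/
def sys0 (P : MvPolynomial (Option ι) ℂ) (a θ : ℂ) (g : MvPolynomial (Option (Option (Option ι))) ℂ) :
    Option (Option (Option ι)) → MvPolynomial (Option (Option (Option ι))) ℂ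
  | none => g
  | some none => C (2 * θ) * X (some (some none)) - L0 ι a
  | some (some none) => rename (exc (Option ι)) (pderiv none P) +
      C (3 * a) * (X none * X (some (some none)) ^ 2) + C θ * X (some none) ^ 2 -
      X (some (some none)) * L0 ι a
  | some (some (some i)) => rename (exc (Option ι)) (pderiv (some i) P) - X (some (some (some i))) * L0 ι a

theorem update_sys0 (P : MvPolynomial (Option ι) ℂ) (a θ : ℂ) (g g' : MvPolynomial (Option (Option (Option ι))) ℂ) :
    Function.update (sys0 P a θ g) none g' = sys0 P a θ g' := by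
  funext o
  rcases o with _ | _ | _ | r
  · exact Function.update_self _ _ _
  · rw [Function.update_of_ne (by simp)]; rfl
  · rw [Function.update_of_ne (by simp)]; rfl
  · rw [Function.update_of_ne (by simp)]; rfl

/-- the first equation -/
def g0 (ι : Type) (a θ : ℂ) : MvPolynomial (Option (Option (Option ι))) ℂ :=
  C θ * (X (some (some none)) * X (some none) ^ 2) - X none * L0 ι a

theorem step0_u (P : MvPolynomial (Option ι) ℂ) (a θ : ℂ) :
    ch (pderiv (some none) (stepF (phi0 P a) (R0 ι θ))) =
      C θ * (X (some (some none)) * X (some none) ^ 2) := by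
  unfold stepF R0
  rw [map_add, pderiv_embY_u]
  simp [pderiv_X, Derivation.leibniz, Derivation.leibniz_pow, ch]
  ring

theorem step0_w (P : MvPolynomial (Option ι) ℂ) (a θ : ℂ) :
    ch (pderiv (some (some none)) (stepF (phi0 P a) (R0 ι θ))) = L0 ι a := by
  have h : (some (some none) : Option (Option (Option (Option (Option ι))))) = embY (Option ι) (some none) := rfl
  unfold stepF R0
  rw [map_add]
  conv_lhs => rw [h]
  rw [pderiv_rename embY_inj84, pderiv_phi0_w]
  simp [pderiv_X, Derivation.leibniz, Derivation.leibniz_pow, ch, embY, L0]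

theorem step0_y (P : MvPolynomial (Option ι) ℂ) (a θ : ℂ) :
    ch (pderiv (some (some (some none))) (stepF (phi0 P a) (R0 ι θ))) =
      X (some none) * (C (2 * θ) * X (some (some none))) := by
  unfold stepF R0
  rw [map_add, pderiv_embY_y, C_mul, C_two']
  simp [pderiv_X, Derivation.leibniz, Derivation.leibniz_pow, ch]
  simp only [map_ofNat]
  ring

theorem step0_b (P : MvPolynomial (Option ι) ℂ) (a θ : ℂ) :
    ch (pderiv (some (some (some (some none)))) (stepF (phi0 P a) (R0 ι θ))) =
      rename (exc (Option ι)) (pderiv none P) +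
      C (3 * a) * (X none * X (some (some none)) ^ 2) + C θ * X (some none) ^ 2 := by
  have h : (some (some (some (some none))) : Option (Option (Option (Option (Option ι))))) =
    embY (Option ι) (some (some none)) := rfl
  unfold stepF R0
  rw [map_add]
  conv_lhs => rw [h]
  rw [pderiv_rename embY_inj84, pderiv_phi0_b, map_add, map_add, map_add, ch_embY_exs]
  simp [pderiv_X, Derivation.leibniz, Derivation.leibniz_pow, ch, embY]
  ring

theorem step0_z (P : MvPolynomial (Option ι) ℂ) (a θ : ℂ) (i : ι) :
    ch (pderiv (some (some (some (some (some i))))) (stepF (phi0 P a) (R0 ι θ))) =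
      rename (exc (Option ι)) (pderiv (some i) P) := by
  have h : (some (some (some (some (some i)))) : Option (Option (Option (Option (Option ι))))) =
    embY (Option ι) (some (some (some i))) := rfl
  unfold stepF R0
  rw [map_add]
  conv_lhs => rw [h]
  rw [pderiv_rename embY_inj84, pderiv_phi0_z, map_add, ch_embY_exs]
  simp [pderiv_X, Derivation.leibniz, Derivation.leibniz_pow, ch, embY]

/-- the ideal of the eigenscheme in the chart -/
theorem chSys_step0 (P : MvPolynomial (Option ι) ℂ) (a θ : ℂ) :
    chSys (stepF (phi0 P a) (R0 ι θ)) =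
      Function.update (sys0 P a θ (g0 ι a θ)) (some none)
        (X (some none) * sys0 P a θ (g0 ι a θ) (some none)) := by
  funext o
  rcases o with _ | _ | _ | i
  · have e : chSys (stepF (phi0 P a) (R0 ι θ)) none =
      ch (pderiv (some none) (stepF (phi0 P a) (R0 ι θ))) -
        X none * ch (pderiv (some (some none)) (stepF (phi0 P a) (R0 ι θ))) := rfl
    rw [e, step0_u, step0_w]
    simp [sys0, g0]
  · have e : chSys (stepF (phi0 P a) (R0 ι θ)) (some none) =
      ch (pderiv (some (some (some none))) (stepF (phi0 P a) (R0 ι θ))) -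
        X (some none) * ch (pderiv (some (some none)) (stepF (phi0 P a) (R0 ι θ))) := rfl
    rw [e, step0_y, step0_w]
    simp [sys0]
    ring
  · have e : chSys (stepF (phi0 P a) (R0 ι θ)) (some (some none)) =
      ch (pderiv (some (some (some (some none)))) (stepF (phi0 P a) (R0 ι θ))) -
        X (some (some none)) * ch (pderiv (some (some none)) (stepF (phi0 P a) (R0 ι θ))) := rfl
    rw [e, step0_b, step0_w]
    simp [sys0]
  · have e : chSys (stepF (phi0 P a) (R0 ι θ)) (some (some (some i))) =
      ch (pderiv (some (some (some (some (some i))))) (stepF (phi0 P a) (R0 ι θ))) -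
        X (some (some (some i))) * ch (pderiv (some (some none)) (stepF (phi0 P a) (R0 ι θ))) := rfl
    rw [e, step0_z, step0_w]
    simp [sys0]

/-! ### the sheets `b = 0` and `2 w = y²` -/

/-- initial forms of `P_j` when `b` has weight larger than `k` and `z` has weight `k` -/
theorem lead_exc' {w : Option (Option (Option ι)) → ℕ} {k : ℕ} (hb : k < w (some (some none)))
    (hz : ∀ i, w (some (some (some i))) = k) {ψ : MvPolynomial (Option ι) ℂ} (h : ψ.IsHomogeneous 3) :
    Lead w (k * 3) (rename (exc (Option ι)) ψ) (aeval (p0X ι) ψ) := by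
  rw [rename_eq_aeval]
  refine Lead.aeval (v := fun _ => k) ?_ (Lead.self (wh_of_isHomogeneous h k).wlo)
  intro o
  rcases o with _ | i
  · exact Lead.of_lt (wh_X w (some (some none))).wlo hb
  · have h1 := Lead.X w (some (some (some i)))
    rw [hz i] at h1
    exact h1

theorem wh_p0X' {w : Option (Option (Option ι)) → ℕ} {k : ℕ}
    (hz : ∀ i, w (some (some (some i))) = k) {ψ : MvPolynomial (Option ι) ℂ} (h : ψ.IsHomogeneous 3) :
    wh w (k * 3) (aeval (p0X ι) ψ) := by
  refine wh_aeval (v := fun _ => k) ?_ (wh_of_isHomogeneous h k)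
  intro o
  rcases o with _ | i
  · exact wh_zero _ _
  · have h1 := wh_X w (some (some (some i)))
    rw [hz i] at h1
    exact h1

/-- the weights of the sheet `b = 0` -/
def w1 (ι : Type) : Option (Option (Option ι)) → ℕ
  | none => 2
  | some none => 3
  | some (some none) => 7
  | some (some (some _)) => 2

def d1 (ι : Type) : Option (Option (Option ι)) → ℕ
  | none => 7
  | some none => 6
  | some (some none) => 6
  | some (some (some _)) => 6

def i1 (P : MvPolynomial (Option ι) ℂ) (θ : ℂ) :
    Option (Option (Option ι)) → MvPolynomial (Option (Option (Option ι))) ℂ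
  | none => X (some (some none))
  | some none => C (-4) * X none ^ 3
  | some (some none) => aeval (p0X ι) (pderiv none P) + C θ * X (some none) ^ 2
  | some (some (some i)) => aeval (p0X ι) (pderiv (some i) P)

theorem wlo_L1 (a : ℂ) : wlo (w1 ι) 6 (L0 ι a) := by
  unfold L0
  refine wlo_add (wlo_mono (by norm_num : 6 ≤ 7 * 3) (wlo_C_mul _ (wlo_pow ?_ 3))) (wlo_C_mul _ ?_)
  · exact (wh_X (w1 ι) (some (some none))).wlo
  · exact wlo_pow (wh_X (w1 ι) none).wlo 3

/-- the sheet `b = 0` -/
theorem mul_sheet1 {P : MvPolynomial (Option ι) ℂ} (hP : P.IsHomogeneous 4)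
    (hz : ∀ z : ι → ℂ, (∀ i, eval (fun o : Option ι => o.elim 0 z) (pderiv (some i) P) = 0) → z = 0)
    {a θ : ℂ} (hθ : θ ≠ 0) :
    mulAt (Ideal.span (Set.range (sys0 P a θ (X (some (some none)))))) 0 = 6 * 3 ^ Fintype.card ι := by
  have hw0 : ∀ o, 0 < w1 ι o := by
    intro o; rcases o with _ | _ | _ | i <;> simp [w1]
  have hd0 : ∀ o, 0 < d1 ι o := by
    intro o; rcases o with _ | _ | _ | i <;> simp [d1]
  have hd : ∀ j : Option ι, (pderiv j P).IsHomogeneous 3 := fun j => hP.pderiv
  have whw : wh (w1 ι) 2 (X none) := wh_X (w1 ι) none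
  have why : wh (w1 ι) 3 (X (some none)) := wh_X (w1 ι) (some none)
  have whb : wh (w1 ι) 7 (X (some (some none))) := wh_X (w1 ι) (some (some none))
  have hwg : ∀ o, wh (w1 ι) (d1 ι o) (i1 P θ o) := by
    intro o; rcases o with _ | _ | _ | i
    · exact whb
    · exact wh_C_mul _ (wh_pow whw 3)
    · refine wh_add (wh_p0X' (k := 2) (fun _ => rfl) (hd none)) (wh_C_mul _ ?_)
      exact wh_pow why 2
    · exact wh_p0X' (k := 2) (fun _ => rfl) (hd (some i))
  have hg0 : ∀ x : Option (Option (Option ι)) → ℂ, (∀ o, eval x (i1 P θ o) = 0) → x = 0 := by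
    intro x hx
    have h1 : (fun i => x (some (some (some i)))) = 0 := by
      apply hz
      intro i
      have h2 := hx (some (some (some i)))
      change eval x (aeval (p0X ι) (pderiv (some i) P)) = 0 at h2
      rw [eval_p0X] at h2
      exact h2
    have hn := hx none
    have hy := hx (some none)
    have hb := hx (some (some none))
    simp only [i1, map_add, map_sub, map_mul, map_pow, eval_X, eval_C] at hn hy hb
    rw [eval_p0X] at hb
    have h3 : eval (fun o : Option ι => o.elim 0 fun i => x (some (some (some i)))) (pderiv none P) = 0 := by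
      have h4 : (fun o : Option ι => o.elim (0 : ℂ) fun i => x (some (some (some i)))) = 0 := by
        funext o
        rcases o with _ | i
        · rfl
        · exact congrFun h1 i
      rw [h4]
      exact eval_zero_of_hom (by norm_num) (hd none)
    rw [h3, zero_add] at hb
    have h5 : x none = 0 := eq_zero_of_pow_eq_zero ((mul_eq_zero.mp hy).resolve_left (by norm_num))
    have h6 : x (some none) = 0 := eq_zero_of_pow_eq_zero ((mul_eq_zero.mp hb).resolve_left hθ)
    funext o
    rcases o with _ | _ | _ | i
    · exact h5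
    · exact h6
    · exact hn
    · exact congrFun h1 i
  have hlead : ∀ o, Lead (w1 ι) (d1 ι o) (sys0 P a θ (X (some (some none))) o) (i1 P θ o) := by
    intro o; rcases o with _ | _ | _ | i
    · exact Lead.self whb.wlo
    · have h1 : sys0 P a θ (X (some (some none))) (some none) = i1 P θ (some none) +
          (C (2 * θ) * X (some (some none)) - C a * X (some (some none)) ^ 3) := by
        simp only [sys0, i1, L0]
        rw [C_neg]
        ring
      rw [h1]
      refine (Lead.self (hwg (some none)).wlo).add_hi (wlo_sub (wlo_C_mul _ ?_) (wlo_C_mul _ ?_))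
      · exact wlo_mono (by change 6 + 1 ≤ 7; norm_num) whb.wlo
      · exact wlo_mono (by change 6 + 1 ≤ 7 * 3; norm_num) (wlo_pow whb.wlo 3)
    · have h1 : sys0 P a θ (X (some (some none))) (some (some none)) =
          (rename (exc (Option ι)) (pderiv none P) + C θ * X (some none) ^ 2) +
          (C (3 * a) * (X none * X (some (some none)) ^ 2) - X (some (some none)) * L0 ι a) := by
        simp only [sys0]
        ring
      rw [h1]
      refine ((lead_exc' (w := w1 ι) (k := 2) (by change 2 < 7; norm_num) (fun _ => rfl) (hd none)).add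
        (Lead.self (wlo_C_mul _ (wlo_pow why.wlo 2)))).add_hi ?_
      refine wlo_sub (wlo_C_mul _ ?_) ?_
      · exact wlo_mono (by norm_num : 6 + 1 ≤ 2 + 7 * 2) (wlo_mul whw.wlo (wlo_pow whb.wlo 2))
      · exact wlo_mono (by norm_num : 6 + 1 ≤ 7 + 6) (wlo_mul whb.wlo (wlo_L1 a))
    · have h1 : sys0 P a θ (X (some (some none))) (some (some (some i))) =
          rename (exc (Option ι)) (pderiv (some i) P) + (- (X (some (some (some i))) * L0 ι a)) := by
        simp only [sys0]
        ring
      rw [h1]
      refine (lead_exc' (w := w1 ι) (k := 2) (by change 2 < 7; norm_num) (fun _ => rfl) (hd (some i))).add_hi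
        (wlo_neg ?_)
      exact wlo_mono (by norm_num : 6 + 1 ≤ 2 + 6) (wlo_mul (wh_X (w1 ι) (some (some (some i)))).wlo (wlo_L1 a))
  have h4 := wBez hw0 hd0 hwg hg0 hlead
  have h5 : ∏ o, w1 ι o = 2 * (3 * (7 * 2 ^ Fintype.card ι)) := by
    rw [Fintype.prod_option, Fintype.prod_option, Fintype.prod_option]
    simp [w1]
  have h6 : ∏ o, d1 ι o = 7 * (6 * (6 * 6 ^ Fintype.card ι)) := by
    rw [Fintype.prod_option, Fintype.prod_option, Fintype.prod_option]
    simp [d1]
  rw [h5, h6] at h4
  have h7 : (6 : ℕ) ^ Fintype.card ι = 2 ^ Fintype.card ι * 3 ^ Fintype.card ι := by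
    rw [← mul_pow]
    norm_num
  rw [h7] at h4
  have h8 : 0 < 42 * 2 ^ Fintype.card ι := by positivity
  refine Nat.eq_of_mul_eq_mul_right h8 ?_
  rw [show 42 * 2 ^ Fintype.card ι = 2 * (3 * (7 * 2 ^ Fintype.card ι)) by ring, h4]
  ring

/-- the weights of the sheet `2 w = y²` -/
def w2 (ι : Type) : Option (Option (Option ι)) → ℕ
  | none => 2
  | some none => 1
  | some (some none) => 3
  | some (some (some _)) => 1

def d2 (ι : Type) : Option (Option (Option ι)) → ℕ
  | none => 2
  | some none => 3
  | some (some none) => 2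
  | some (some (some _)) => 3

def i2 (P : MvPolynomial (Option ι) ℂ) (θ : ℂ) :
    Option (Option (Option ι)) → MvPolynomial (Option (Option (Option ι))) ℂ
  | none => X (some none) ^ 2 - C 2 * X none
  | some none => C (2 * θ) * X (some (some none))
  | some (some none) => C θ * X (some none) ^ 2
  | some (some (some i)) => aeval (p0X ι) (pderiv (some i) P)

theorem wlo_L2 (a : ℂ) : wlo (w2 ι) 6 (L0 ι a) := by
  unfold L0
  refine wlo_add (wlo_mono (by norm_num : 6 ≤ 3 * 3) (wlo_C_mul _ (wlo_pow ?_ 3))) (wlo_C_mul _ ?_)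
  · exact (wh_X (w2 ι) (some (some none))).wlo
  · exact wlo_pow (wh_X (w2 ι) none).wlo 3

/-- the sheet `2 w = y²` -/
theorem mul_sheet2 {P : MvPolynomial (Option ι) ℂ} (hP : P.IsHomogeneous 4)
    (hz : ∀ z : ι → ℂ, (∀ i, eval (fun o : Option ι => o.elim 0 z) (pderiv (some i) P) = 0) → z = 0)
    {a θ : ℂ} (hθ : θ ≠ 0) :
    mulAt (Ideal.span (Set.range (sys0 P a θ (X (some none) ^ 2 - C 2 * X none)))) 0 = 2 * 3 ^ Fintype.card ι := by
  have hw0 : ∀ o, 0 < w2 ι o := by
    intro o; rcases o with _ | _ | _ | i <;> simp [w2]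
  have hd0 : ∀ o, 0 < d2 ι o := by
    intro o; rcases o with _ | _ | _ | i <;> simp [d2]
  have hd : ∀ j : Option ι, (pderiv j P).IsHomogeneous 3 := fun j => hP.pderiv
  have whw : wh (w2 ι) 2 (X none) := wh_X (w2 ι) none
  have why : wh (w2 ι) 1 (X (some none)) := wh_X (w2 ι) (some none)
  have whb : wh (w2 ι) 3 (X (some (some none))) := wh_X (w2 ι) (some (some none))
  have hwg : ∀ o, wh (w2 ι) (d2 ι o) (i2 P θ o) := by
    intro o; rcases o with _ | _ | _ | i
    · refine wh_sub ?_ (wh_C_mul _ whw)
      exact wh_pow why 2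
    · exact wh_C_mul _ whb
    · refine wh_C_mul _ ?_
      exact wh_pow why 2
    · exact wh_p0X' (k := 1) (fun _ => rfl) (hd (some i))
  have hg0 : ∀ x : Option (Option (Option ι)) → ℂ, (∀ o, eval x (i2 P θ o) = 0) → x = 0 := by
    intro x hx
    have h1 : (fun i => x (some (some (some i)))) = 0 := by
      apply hz
      intro i
      have h2 := hx (some (some (some i)))
      change eval x (aeval (p0X ι) (pderiv (some i) P)) = 0 at h2
      rw [eval_p0X] at h2
      exact h2
    have hn := hx none
    have hy := hx (some none)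
    have hb := hx (some (some none))
    simp only [i2, map_add, map_sub, map_mul, map_pow, eval_X, eval_C] at hn hy hb
    have h6 : x (some none) = 0 := eq_zero_of_pow_eq_zero ((mul_eq_zero.mp hb).resolve_left hθ)
    have h7 : x (some (some none)) = 0 :=
      (mul_eq_zero.mp hy).resolve_left (mul_ne_zero two_ne_zero hθ)
    have h5 : x none = 0 := by
      rw [h6] at hn
      have : (2 : ℂ) * x none = 0 := by linear_combination -hn
      exact (mul_eq_zero.mp this).resolve_left two_ne_zero
    funext o
    rcases o with _ | _ | _ | i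
    · exact h5
    · exact h6
    · exact h7
    · exact congrFun h1 i
  have hlead : ∀ o, Lead (w2 ι) (d2 ι o) (sys0 P a θ (X (some none) ^ 2 - C 2 * X none) o) (i2 P θ o) := by
    intro o; rcases o with _ | _ | _ | i
    · exact Lead.self (hwg none).wlo
    · have h1 : sys0 P a θ (X (some none) ^ 2 - C 2 * X none) (some none) = i2 P θ (some none) +
          (- L0 ι a) := by
        simp only [sys0, i2]
        ring
      rw [h1]
      exact (Lead.self (hwg (some none)).wlo).add_hi (wlo_neg (wlo_mono (by change 3 + 1 ≤ 6; norm_num) (wlo_L2 a)))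
    · have h1 : sys0 P a θ (X (some none) ^ 2 - C 2 * X none) (some (some none)) = i2 P θ (some (some none)) +
          (rename (exc (Option ι)) (pderiv none P) +
          (C (3 * a) * (X none * X (some (some none)) ^ 2) - X (some (some none)) * L0 ι a)) := by
        simp only [sys0, i2]
        ring
      rw [h1]
      refine (Lead.self (hwg (some (some none))).wlo).add_hi (wlo_add ?_ (wlo_sub (wlo_C_mul _ ?_) ?_))
      · exact (lead_exc' (w := w2 ι) (k := 1) (by change 1 < 3; norm_num) (fun _ => rfl) (hd none)).lof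
      · exact wlo_mono (by change 2 + 1 ≤ 2 + 3 * 2; norm_num) (wlo_mul whw.wlo (wlo_pow whb.wlo 2))
      · exact wlo_mono (by change 2 + 1 ≤ 3 + 6; norm_num) (wlo_mul whb.wlo (wlo_L2 a))
    · have h1 : sys0 P a θ (X (some none) ^ 2 - C 2 * X none) (some (some (some i))) =
          rename (exc (Option ι)) (pderiv (some i) P) + (- (X (some (some (some i))) * L0 ι a)) := by
        simp only [sys0]
        ring
      rw [h1]
      refine (lead_exc' (w := w2 ι) (k := 1) (by change 1 < 3; norm_num) (fun _ => rfl) (hd (some i))).add_hi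
        (wlo_neg ?_)
      exact wlo_mono (by norm_num : 1 * 3 + 1 ≤ 1 + 6) (wlo_mul (wh_X (w2 ι) (some (some (some i)))).wlo (wlo_L2 a))
  have h4 := wBez hw0 hd0 hwg hg0 hlead
  have h5 : ∏ o, w2 ι o = 6 := by
    rw [Fintype.prod_option, Fintype.prod_option, Fintype.prod_option]
    simp [w2]
  have h6 : ∏ o, d2 ι o = 12 * 3 ^ Fintype.card ι := by
    rw [Fintype.prod_option, Fintype.prod_option, Fintype.prod_option]
    simp [d2]
    ring
  rw [h5, h6] at h4
  omega

/-- **the sheet `y ≠ 0`** has multiplicity `8 · 3^K` -/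
theorem mul_sheet {P : MvPolynomial (Option ι) ℂ} (hP : P.IsHomogeneous 4)
    (hz : ∀ z : ι → ℂ, (∀ i, eval (fun o : Option ι => o.elim 0 z) (pderiv (some i) P) = 0) → z = 0)
    {a θ : ℂ} (hθ : θ ≠ 0) :
    mulAt (Ideal.span (Set.range (sys0 P a θ (g0 ι a θ)))) 0 = 8 * 3 ^ Fintype.card ι := by
  have h1 := mul_sheet1 (a := a) hP hz hθ
  have h2 := mul_sheet2 (a := a) hP hz hθ
  have h3 := cmAdd (sys0 P a θ 0) none (X (some (some none))) (X (some none) ^ 2 - C 2 * X none)
    (by rw [update_sys0, h1]; positivity) (by rw [update_sys0, h2]; positivity)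
  rw [update_sys0, update_sys0, update_sys0, h1, h2] at h3
  have h4 : Ideal.span (Set.range (sys0 P a θ (g0 ι a θ))) =
      Ideal.span (Set.range (sys0 P a θ (X (some (some none)) * (X (some none) ^ 2 - C 2 * X none)))) := by
    have e : g0 ι a θ = C θ * (X (some (some none)) * (X (some none) ^ 2 - C 2 * X none)) +
        X none * (C (2 * θ) * X (some (some none)) - L0 ι a) := by
      unfold g0
      rw [C_mul]
      ring
    apply le_antisymm
    · rw [Ideal.span_le]
      rintro _ ⟨o, rfl⟩
      rcases o with _ | o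
      · change g0 ι a θ ∈ Ideal.span _
        rw [e]
        exact Ideal.add_mem _ (Ideal.mul_mem_left _ _ (Ideal.subset_span ⟨none, rfl⟩))
          (Ideal.mul_mem_left _ _ (Ideal.subset_span ⟨some none, rfl⟩))
      · refine Ideal.subset_span ⟨some o, ?_⟩
        rcases o with _ | _ | i <;> rfl
    · rw [Ideal.span_le]
      rintro _ ⟨o, rfl⟩
      rcases o with _ | o
      · change X (some (some none)) * (X (some none) ^ 2 - C 2 * X none) ∈ Ideal.span _
        have e2 : (X (some (some none)) * (X (some none) ^ 2 - C 2 * X none) :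
            MvPolynomial (Option (Option (Option ι))) ℂ) = C θ⁻¹ * (g0 ι a θ -
              X none * (C (2 * θ) * X (some (some none)) - L0 ι a)) := by
          rw [e, add_sub_cancel_right, ← mul_assoc, ← C_mul, inv_mul_cancel₀ hθ, C_1, one_mul]
        rw [e2]
        exact Ideal.mul_mem_left _ _ (Ideal.sub_mem _ (Ideal.subset_span ⟨none, rfl⟩)
          (Ideal.mul_mem_left _ _ (Ideal.subset_span ⟨some none, rfl⟩)))
      · refine Ideal.subset_span ⟨some o, ?_⟩
        rcases o with _ | _ | i <;> rfl
  rw [h4, h3]
  ring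

end

end X20

end EY
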