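import Pool.Agent.helper35.EY.FinE
import Pool.Agent.helper50.EY.Open
import Pool.Agent.helper51.EY.CM

set_option autoImplicit false
set_option linter.unusedSectionVars false
set_option linter.unusedSimpArgs false

/-!
# EY-X21A: the form `X21` (`q = 3`), the chart equations

`x = (b, z)`, `P = P(b, z)` of degree 4, `f = P + a w b³ + c w³ b + u y² (α b + β y)`; the metric is
`2 u w + y² + b² + |z|²`.  In the variables of `St`: `σ = none`, `w = some none`, `b = some (some none)`,
`z_i = some (some (some i))`.
-/

namespace EY

namespace X21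

open MvPolynomial

noncomputable section

/-- a zero of a scheme with finite local ring has positive multiplicity -/
theorem mulAt_ne_zero84 {σ : Type*} {I : Ideal (MvPolynomial σ ℂ)} {p : σ → ℂ} (hI : ∀ f ∈ I, eval p f = 0)
    (hf : Module.Finite ℂ (Localization.AtPrime (pt p) ⧸
      I.map (algebraMap (MvPolynomial σ ℂ) (Localization.AtPrime (pt p))))) : mulAt I p ≠ 0 := by
  have h1 : I ≤ pt p := fun f hf => mem_pt.mpr (hI f hf)
  have h2 : I.map (algebraMap (MvPolynomial σ ℂ) (Localization.AtPrime (pt p))) ≠ ⊤ := by
    intro h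
    have h3 := Ideal.map_mono (f := algebraMap (MvPolynomial σ ℂ) (Localization.AtPrime (pt p))) h1
    rw [h, Localization.AtPrime.map_eq_maximalIdeal] at h3
    exact (IsLocalRing.maximalIdeal.isMaximal _).ne_top (top_le_iff.mp h3)
  have h3 : Nontrivial (Localization.AtPrime (pt p) ⧸
      I.map (algebraMap (MvPolynomial σ ℂ) (Localization.AtPrime (pt p)))) := Ideal.Quotient.nontrivial_iff.mpr h2
  unfold mulAt
  exact Module.finrank_pos.ne'

/-- elimination of a variable `i0` (the sheet `X i0 = 0`), the others are the `j t` -/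
theorem mulAt_kill {σ τ : Type*} (i0 : σ) (j : τ → σ) (s : σ → Option τ) (hs0 : s i0 = none)
    (hsj : ∀ t, s (j t) = some t) (hc : ∀ o, o = i0 ∨ ∃ t, o = j t) (I : Ideal (MvPolynomial σ ℂ)) (hI : X i0 ∈ I) :
    mulAt I (0 : σ → ℂ) = mulAt (I.map (aeval (fun o => (s o).elim (0 : MvPolynomial τ ℂ) X) :
      MvPolynomial σ ℂ →ₐ[ℂ] MvPolynomial τ ℂ)) (0 : τ → ℂ) := by
  set φ : MvPolynomial σ ℂ →ₐ[ℂ] MvPolynomial τ ℂ := aeval (fun o => (s o).elim (0 : MvPolynomial τ ℂ) X) with hφ
  have hφ0 : φ (X i0) = 0 := by rw [hφ, aeval_X, hs0]; rfl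
  have hφj : ∀ t, φ (X (j t)) = X t := by intro t; rw [hφ, aeval_X, hsj]; rfl
  have hr : ∀ f : MvPolynomial τ ℂ, φ (rename j f) = f := by
    intro f
    have : φ.comp (rename j) = AlgHom.id ℂ (MvPolynomial τ ℂ) := by
      apply MvPolynomial.algHom_ext
      intro t
      rw [AlgHom.comp_apply, rename_X, hφj]
      rfl
    exact AlgHom.congr_fun this f
  have hk : ∀ x : MvPolynomial σ ℂ, x - rename j (φ x) ∈ Ideal.span {(X i0 : MvPolynomial σ ℂ)} := by
    intro x
    induction x using MvPolynomial.induction_on with
    | C a =>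
      have : rename j (φ (C a)) = (C a : MvPolynomial σ ℂ) := by
        rw [hφ, aeval_C, MvPolynomial.algebraMap_eq, rename_C]
      rw [this, sub_self]; exact Ideal.zero_mem _
    | add p q hp hq =>
      have e : p + q - rename j (φ (p + q)) = (p - rename j (φ p)) + (q - rename j (φ q)) := by
        rw [map_add, map_add]; ring
      rw [e]; exact Ideal.add_mem _ hp hq
    | mul_X p i hp =>
      have e : p * X i - rename j (φ (p * X i)) =
          X i * (p - rename j (φ p)) + rename j (φ p) * (X i - rename j (φ (X i))) := by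
        rw [map_mul, map_mul]; ring
      rw [e]
      apply Ideal.add_mem _ (Ideal.mul_mem_left _ _ hp)
      apply Ideal.mul_mem_left
      rcases hc i with rfl | ⟨t, rfl⟩
      · rw [hφ0, map_zero, sub_zero]; exact Ideal.subset_span rfl
      · rw [hφj, rename_X, sub_self]; exact Ideal.zero_mem _
  refine mulAt_map φ (fun f => ⟨_, hr f⟩) I ?_ 0 0 ?_
  · intro x hx
    have h1 := hk x
    rw [hx, map_zero, sub_zero] at h1
    exact (Ideal.span_le.mpr (Set.singleton_subset_iff.mpr hI)) h1
  · intro x
    have h1 : (eval (0 : τ → ℂ)).comp φ.toRingHom = eval (0 : σ → ℂ) := by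
      apply MvPolynomial.ringHom_ext
      · intro c
        simp
      · intro o
        rcases hc o with rfl | ⟨t, rfl⟩
        · simp [hφ0]
        · simp [hφj]
    exact RingHom.congr_fun h1 x

theorem C_two' {σ : Type*} : (C 2 : MvPolynomial σ ℂ) = 2 := map_ofNat C 2

theorem C_three' {σ : Type*} : (C 3 : MvPolynomial σ ℂ) = 3 := map_ofNat C 3

variable {ι : Type} [Fintype ι] [DecidableEq ι]

/-- the variables `x = (b, z)` in `σ, w, x` -/
def exs (ι' : Type) : ι' → Option (Option ι') := fun j => some (some j)

theorem exs_inj {ι' : Type} : Function.Injective (exs ι') := by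
  intro a b h
  simpa [exs] using h

/-- `P + a w b³ + c w³ b` -/
def phiX (P : MvPolynomial (Option ι) ℂ) (a c : ℂ) : MvPolynomial (Option (Option (Option ι))) ℂ :=
  rename (exs (Option ι)) P + C a * (X (some none) * X (some (some none)) ^ 3) +
    C c * (X (some none) ^ 3 * X (some (some none)))

/-- `u (α b + β y)` -/
def RX (ι : Type) (α β : ℂ) : MvPolynomial (Option (Option (Option (Option (Option ι))))) ℂ :=
  C α * (X (some none) * X (some (some (some (some none))))) + C β * (X (some none) * X (some (some (some none))))

theorem pderiv_exs_T {ι' : Type} (P : MvPolynomial ι' ℂ) : pderiv none (rename (exs ι') P) = 0 := by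
  classical
  apply pderiv_eq_zero_of_notMem_vars
  intro hmem
  obtain ⟨o, _, ho⟩ := Finset.mem_image.mp (vars_rename (exs ι') P hmem)
  simp [exs] at ho

theorem pderiv_exs_w {ι' : Type} (P : MvPolynomial ι' ℂ) : pderiv (some none) (rename (exs ι') P) = 0 := by
  classical
  apply pderiv_eq_zero_of_notMem_vars
  intro hmem
  obtain ⟨o, _, ho⟩ := Finset.mem_image.mp (vars_rename (exs ι') P hmem)
  simp [exs] at ho

theorem pderiv_exs_x {ι' : Type} (P : MvPolynomial ι' ℂ) (j : ι') :
    pderiv (some (some j)) (rename (exs ι') P) = rename (exs ι') (pderiv j P) :=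
  pderiv_rename exs_inj j P

theorem pderiv_phiX_T (P : MvPolynomial (Option ι) ℂ) (a c : ℂ) : pderiv none (phiX P a c) = 0 := by
  unfold phiX
  rw [map_add, map_add, pderiv_exs_T]
  simp [pderiv_X, Derivation.leibniz, Derivation.leibniz_pow]

theorem pderiv_phiX_w (P : MvPolynomial (Option ι) ℂ) (a c : ℂ) : pderiv (some none) (phiX P a c) =
    C a * X (some (some none)) ^ 3 + C (3 * c) * (X (some none) ^ 2 * X (some (some none))) := by
  unfold phiX
  rw [map_add, map_add, pderiv_exs_w, C_mul, C_three']
  simp [pderiv_X, Derivation.leibniz, Derivation.leibniz_pow]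
  ring

theorem pderiv_phiX_b (P : MvPolynomial (Option ι) ℂ) (a c : ℂ) : pderiv (some (some none)) (phiX P a c) =
    rename (exs (Option ι)) (pderiv none P) + C (3 * a) * (X (some none) * X (some (some none)) ^ 2) +
      C c * X (some none) ^ 3 := by
  unfold phiX
  rw [map_add, map_add, pderiv_exs_x, C_mul, C_three']
  simp [pderiv_X, Derivation.leibniz, Derivation.leibniz_pow]
  ring

theorem pderiv_phiX_z (P : MvPolynomial (Option ι) ℂ) (a c : ℂ) (i : ι) :
    pderiv (some (some (some i))) (phiX P a c) = rename (exs (Option ι)) (pderiv (some i) P) := by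
  unfold phiX
  rw [map_add, map_add, pderiv_exs_x]
  simp [pderiv_X, Derivation.leibniz, Derivation.leibniz_pow]

/-! ### the chart equations -/

/-- the variables `x = (b, z)` in the chart `w, y, x` -/
def exc (ι' : Type) : ι' → Option (Option ι') := fun j => some (some j)

theorem ch_embY_exs {ι' : Type} [Fintype ι'] [DecidableEq ι'] (P : MvPolynomial ι' ℂ) :
    ch (rename (embY ι') (rename (exs ι') P)) = rename (exc ι') P := by
  unfold ch
  rw [aeval_rename, aeval_rename]
  have h : (rename (exc ι') : MvPolynomial ι' ℂ →ₐ[ℂ] MvPolynomial (Option (Option ι')) ℂ) =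
      aeval (X ∘ exc ι') := by
    apply MvPolynomial.algHom_ext
    intro j
    rw [rename_X, aeval_X]
    rfl
  rw [h]
  rfl

/-- `L = a b³ + 3 c w² b` in the chart -/
def LX (ι : Type) (a c : ℂ) : MvPolynomial (Option (Option (Option ι))) ℂ :=
  C a * X (some (some none)) ^ 3 + C (3 * c) * (X none ^ 2 * X (some (some none)))

/-- the equations in the chart `u = 1` (without the factor `y` in the equation of `y`) -/
def sysX (P : MvPolynomial (Option ι) ℂ) (a c α β : ℂ) :
    Option (Option (Option ι)) → MvPolynomial (Option (Option (Option ι))) ℂ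
  | none => C α * (X (some (some none)) * X (some none) ^ 2) + C β * X (some none) ^ 3 - X none * LX ι a c
  | some none => C (2 * α) * X (some (some none)) + C (3 * β) * X (some none) - LX ι a c
  | some (some none) => rename (exc (Option ι)) (pderiv none P) +
      C (3 * a) * (X none * X (some (some none)) ^ 2) + C c * X none ^ 3 + C α * X (some none) ^ 2 -
      X (some (some none)) * LX ι a c
  | some (some (some i)) => rename (exc (Option ι)) (pderiv (some i) P) - X (some (some (some i))) * LX ι a c

theorem embY_inj84 {τ : Type} : Function.Injective (embY τ) := by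
  intro a b h
  rcases a with _ | _ | a <;> rcases b with _ | _ | b <;> simp [embY] at h ⊢
  exact h

theorem pderiv_embY_u {τ : Type} (φ : MvPolynomial (Option (Option τ)) ℂ) :
    pderiv (some none) (rename (embY τ) φ) = 0 := by
  classical
  apply pderiv_eq_zero_of_notMem_vars
  intro hmem
  obtain ⟨o, _, ho⟩ := Finset.mem_image.mp (vars_rename (embY τ) φ hmem)
  rcases o with _ | _ | o <;> simp [embY] at ho

theorem pderiv_embY_y {τ : Type} (φ : MvPolynomial (Option (Option τ)) ℂ) :
    pderiv (some (some (some none))) (rename (embY τ) φ) = 0 := by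
  classical
  apply pderiv_eq_zero_of_notMem_vars
  intro hmem
  obtain ⟨o, _, ho⟩ := Finset.mem_image.mp (vars_rename (embY τ) φ hmem)
  rcases o with _ | _ | o <;> simp [embY] at ho

theorem stepX_u (P : MvPolynomial (Option ι) ℂ) (a c α β : ℂ) :
    ch (pderiv (some none) (stepF (phiX P a c) (RX ι α β))) =
      C α * (X (some (some none)) * X (some none) ^ 2) + C β * X (some none) ^ 3 := by
  unfold stepF RX
  rw [map_add, pderiv_embY_u]
  simp [pderiv_X, Derivation.leibniz, Derivation.leibniz_pow, ch]
  ring

theorem stepX_w (P : MvPolynomial (Option ι) ℂ) (a c α β : ℂ) :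
    ch (pderiv (some (some none)) (stepF (phiX P a c) (RX ι α β))) = LX ι a c := by
  have h : (some (some none) : Option (Option (Option (Option (Option ι))))) = embY (Option ι) (some none) := rfl
  unfold stepF RX
  rw [map_add]
  conv_lhs => rw [h]
  rw [pderiv_rename embY_inj84, pderiv_phiX_w]
  simp [pderiv_X, Derivation.leibniz, Derivation.leibniz_pow, ch, embY, LX]

theorem stepX_y (P : MvPolynomial (Option ι) ℂ) (a c α β : ℂ) :
    ch (pderiv (some (some (some none))) (stepF (phiX P a c) (RX ι α β))) =
      X (some none) * (C (2 * α) * X (some (some none)) + C (3 * β) * X (some none)) := by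
  unfold stepF RX
  rw [map_add, pderiv_embY_y, C_mul, C_mul, C_three', C_two']
  simp [pderiv_X, Derivation.leibniz, Derivation.leibniz_pow, ch]
  simp only [map_ofNat]
  ring

theorem stepX_b (P : MvPolynomial (Option ι) ℂ) (a c α β : ℂ) :
    ch (pderiv (some (some (some (some none)))) (stepF (phiX P a c) (RX ι α β))) =
      rename (exc (Option ι)) (pderiv none P) +
      C (3 * a) * (X none * X (some (some none)) ^ 2) + C c * X none ^ 3 + C α * X (some none) ^ 2 := by
  have h : (some (some (some (some none))) : Option (Option (Option (Option (Option ι))))) =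
    embY (Option ι) (some (some none)) := rfl
  unfold stepF RX
  rw [map_add]
  conv_lhs => rw [h]
  rw [pderiv_rename embY_inj84, pderiv_phiX_b, map_add, map_add, map_add, map_add, map_add, ch_embY_exs]
  simp [pderiv_X, Derivation.leibniz, Derivation.leibniz_pow, ch, embY]
  ring

theorem stepX_z (P : MvPolynomial (Option ι) ℂ) (a c α β : ℂ) (i : ι) :
    ch (pderiv (some (some (some (some (some i))))) (stepF (phiX P a c) (RX ι α β))) =
      rename (exc (Option ι)) (pderiv (some i) P) := by
  have h : (some (some (some (some (some i)))) : Option (Option (Option (Option (Option ι))))) =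
    embY (Option ι) (some (some (some i))) := rfl
  unfold stepF RX
  rw [map_add]
  conv_lhs => rw [h]
  rw [pderiv_rename embY_inj84, pderiv_phiX_z, map_add, ch_embY_exs]
  simp [pderiv_X, Derivation.leibniz, Derivation.leibniz_pow, ch, embY]

/-- the ideal of the eigenscheme in the chart -/
theorem chSys_stepX (P : MvPolynomial (Option ι) ℂ) (a c α β : ℂ) :
    chSys (stepF (phiX P a c) (RX ι α β)) =
      Function.update (sysX P a c α β) (some none) (X (some none) * sysX P a c α β (some none)) := by
  funext o
  rcases o with _ | _ | _ | i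
  · have e : chSys (stepF (phiX P a c) (RX ι α β)) none =
      ch (pderiv (some none) (stepF (phiX P a c) (RX ι α β))) -
        X none * ch (pderiv (some (some none)) (stepF (phiX P a c) (RX ι α β))) := rfl
    rw [e, stepX_u, stepX_w]
    simp [sysX]
  · have e : chSys (stepF (phiX P a c) (RX ι α β)) (some none) =
      ch (pderiv (some (some (some none))) (stepF (phiX P a c) (RX ι α β))) -
        X (some none) * ch (pderiv (some (some none)) (stepF (phiX P a c) (RX ι α β))) := rfl
    rw [e, stepX_y, stepX_w]
    simp [sysX]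
    ring
  · have e : chSys (stepF (phiX P a c) (RX ι α β)) (some (some none)) =
      ch (pderiv (some (some (some (some none)))) (stepF (phiX P a c) (RX ι α β))) -
        X (some (some none)) * ch (pderiv (some (some none)) (stepF (phiX P a c) (RX ι α β))) := rfl
    rw [e, stepX_b, stepX_w]
    simp [sysX]
  · have e : chSys (stepF (phiX P a c) (RX ι α β)) (some (some (some i))) =
      ch (pderiv (some (some (some (some (some i))))) (stepF (phiX P a c) (RX ι α β))) -
        X (some (some (some i))) * ch (pderiv (some (some none)) (stepF (phiX P a c) (RX ι α β))) := rfl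
    rw [e, stepX_z, stepX_w]
    simp [sysX]

end

end X21

end EY
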