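import Pool.Agent.helper84.EY.X21A

set_option autoImplicit false
set_option linter.unusedSectionVars false
set_option linter.unusedSimpArgs false

/-!
# EY-X21B: the form `X21`, the two sheets
-/

namespace EY

namespace X21

open MvPolynomial

noncomputable section

variable {ι : Type} [Fintype ι] [DecidableEq ι]

/-- a homogeneous polynomial is weighted homogeneous for constant weights -/
theorem wh_of_isHomogeneous {σ : Type*} [Fintype σ] {n : ℕ} {ψ : MvPolynomial σ ℂ} (h : ψ.IsHomogeneous n) (k : ℕ) :
    wh (fun _ => k) (k * n) ψ := by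
  intro α hα
  have h1 := h hα
  rw [Finsupp.weight_apply, Finsupp.sum_fintype _ _ (fun _ => by simp)] at h1
  unfold wd
  rw [← h1, Finset.mul_sum]
  simp

theorem eval_zero_of_hom {σ : Type*} {n : ℕ} (hn : n ≠ 0) {ψ : MvPolynomial σ ℂ} (h : ψ.IsHomogeneous n) :
    eval (0 : σ → ℂ) ψ = 0 := by
  rw [MvPolynomial.eval_zero, constantCoeff_eq]
  by_contra hne
  have h1 := h hne
  rw [map_zero] at h1
  exact hn h1.symm

theorem rename_eq_aeval {σ τ : Type*} (e : σ → τ) (ψ : MvPolynomial σ ℂ) :
    rename e ψ = aeval (fun j => (X (e j) : MvPolynomial τ ℂ)) ψ := by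
  have h : (rename e : MvPolynomial σ ℂ →ₐ[ℂ] MvPolynomial τ ℂ) = aeval (fun j => (X (e j) : MvPolynomial τ ℂ)) := by
    apply MvPolynomial.algHom_ext
    intro j
    rw [rename_X, aeval_X]
  rw [h]

/-! ### the sheet `y ≠ 0` -/

/-- the weights `w : 2, y : 3, b : 3, z : 2` -/
def wX (ι : Type) : Option (Option (Option ι)) → ℕ
  | none => 2
  | some none => 3
  | some (some none) => 3
  | some (some (some _)) => 2

/-- the degrees -/
def dX (ι : Type) : Option (Option (Option ι)) → ℕ
  | none => 9
  | some none => 3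
  | some (some none) => 6
  | some (some (some _)) => 6

/-- `b ↦ 0`, `z ↦ z` -/
def p0X (ι : Type) : Option ι → MvPolynomial (Option (Option (Option ι))) ℂ :=
  fun o => o.elim 0 fun i => X (some (some (some i)))

/-- the initial forms -/
def gX (P : MvPolynomial (Option ι) ℂ) (c α β : ℂ) :
    Option (Option (Option ι)) → MvPolynomial (Option (Option (Option ι))) ℂ
  | none => C α * (X (some (some none)) * X (some none) ^ 2) + C β * X (some none) ^ 3 -
      C (3 * c) * (X none ^ 3 * X (some (some none)))
  | some none => C (2 * α) * X (some (some none)) + C (3 * β) * X (some none)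
  | some (some none) => aeval (p0X ι) (pderiv none P) + C c * X none ^ 3 + C α * X (some none) ^ 2
  | some (some (some i)) => aeval (p0X ι) (pderiv (some i) P)

theorem eval_p0X (x : Option (Option (Option ι)) → ℂ) (ψ : MvPolynomial (Option ι) ℂ) :
    eval x (aeval (p0X ι) ψ) = eval (fun o : Option ι => o.elim 0 fun i => x (some (some (some i)))) ψ := by
  have h : (eval x).comp (aeval (p0X ι) : MvPolynomial (Option ι) ℂ →ₐ[ℂ] _).toRingHom =
      eval (fun o : Option ι => o.elim 0 fun i => x (some (some (some i)))) := by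
    apply MvPolynomial.ringHom_ext
    · intro c
      simp
    · intro o
      rcases o with _ | o <;> simp [p0X]
  exact RingHom.congr_fun h ψ

theorem wh_p0X {ψ : MvPolynomial (Option ι) ℂ} (h : ψ.IsHomogeneous 3) : wh (wX ι) 6 (aeval (p0X ι) ψ) := by
  refine wh_aeval (v := fun _ => 2) ?_ (wh_of_isHomogeneous h 2)
  intro o
  rcases o with _ | i
  · exact wh_zero _ _
  · exact wh_X (wX ι) (some (some (some i)))

theorem lead_exc {ψ : MvPolynomial (Option ι) ℂ} (h : ψ.IsHomogeneous 3) :
    Lead (wX ι) 6 (rename (exc (Option ι)) ψ) (aeval (p0X ι) ψ) := by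
  rw [rename_eq_aeval]
  refine Lead.aeval (v := fun _ => 2) ?_ (Lead.self (wh_of_isHomogeneous h 2).wlo)
  intro o
  rcases o with _ | i
  · exact Lead.of_lt (wh_X (wX ι) (some (some none))).wlo (by change 2 < 3; norm_num)
  · exact Lead.X (wX ι) (some (some (some i)))

theorem whw : wh (wX ι) 2 (X none) := wh_X (wX ι) none

theorem why : wh (wX ι) 3 (X (some none)) := wh_X (wX ι) (some none)

theorem whb : wh (wX ι) 3 (X (some (some none))) := wh_X (wX ι) (some (some none))

theorem whz (i : ι) : wh (wX ι) 2 (X (some (some (some i)))) := wh_X (wX ι) (some (some (some i)))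

/-- `L` has order at least 7 -/
theorem wlo_LX (a c : ℂ) : wlo (wX ι) 7 (LX ι a c) := by
  unfold LX
  refine wlo_add (wlo_mono (by norm_num : 7 ≤ 3 * 3) (wlo_C_mul _ (wlo_pow whb.wlo 3))) (wlo_C_mul _ ?_)
  exact wlo_mono (by norm_num : 7 ≤ 2 * 2 + 3) (wlo_mul (wlo_pow whw.wlo 2) whb.wlo)

/-- **the sheet `y ≠ 0`** has multiplicity `9 · 3^|z|` -/
theorem mul_sheetB {P : MvPolynomial (Option ι) ℂ} (hP : P.IsHomogeneous 4)
    (hz : ∀ z : ι → ℂ, (∀ i, eval (fun o : Option ι => o.elim 0 z) (pderiv (some i) P) = 0) → z = 0)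
    {a c α β : ℂ} (hc : c ≠ 0) (hα : α ≠ 0) (hβ : β ≠ 0) :
    mulAt (Ideal.span (Set.range (sysX P a c α β))) 0 = 9 * 3 ^ Fintype.card ι := by
  have hw0 : ∀ o, 0 < wX ι o := by
    intro o; rcases o with _ | _ | _ | i <;> simp [wX]
  have hd0 : ∀ o, 0 < dX ι o := by
    intro o; rcases o with _ | _ | _ | i <;> simp [dX]
  have hd : ∀ j : Option ι, (pderiv j P).IsHomogeneous 3 := fun j => hP.pderiv
  have hwg : ∀ o, wh (wX ι) (dX ι o) (gX P c α β o) := by
    intro o; rcases o with _ | _ | _ | i
    · refine wh_sub (wh_add (wh_C_mul _ ?_) (wh_C_mul _ ?_)) (wh_C_mul _ ?_)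
      · exact wh_mul whb (wh_pow why 2)
      · exact wh_pow why 3
      · exact wh_mul (wh_pow whw 3) whb
    · exact wh_add (wh_C_mul _ whb) (wh_C_mul _ why)
    · refine wh_add (wh_add (wh_p0X (hd none)) (wh_C_mul _ ?_)) (wh_C_mul _ ?_)
      · exact wh_pow whw 3
      · exact wh_pow why 2
    · exact wh_p0X (hd (some i))
  have hg0 : ∀ x : Option (Option (Option ι)) → ℂ, (∀ o, eval x (gX P c α β o) = 0) → x = 0 := by
    intro x hx
    have h1 : (fun i => x (some (some (some i)))) = 0 := by
      apply hz
      intro i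
      have h2 := hx (some (some (some i)))
      change eval x (aeval (p0X ι) (pderiv (some i) P)) = 0 at h2
      rw [eval_p0X] at h2
      exact h2
    have hn := hx none
    have hy := hx (some none)
    have hb := hx (some (some none))
    simp only [gX, map_add, map_sub, map_mul, map_pow, eval_X, eval_C] at hn hy hb
    rw [eval_p0X] at hb
    have h3 : eval (fun o : Option ι => o.elim 0 fun i => x (some (some (some i)))) (pderiv none P) = 0 := by
      have h4 : (fun o : Option ι => o.elim (0 : ℂ) fun i => x (some (some (some i)))) = 0 := by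
        funext o
        rcases o with _ | i
        · rfl
        · exact congrFun h1 i
      rw [h4]
      exact eval_zero_of_hom (by norm_num) (hd none)
    rw [h3, zero_add] at hb
    set w := x none with hw
    set y := x (some none) with hyy
    set b := x (some (some none)) with hbb
    have h6 : y * (10 * (c * w ^ 3)) = 0 := by
      have h7 : (2 * α) * b = - (3 * β * y) := by linear_combination hy
      have h8 : y * (α * y ^ 2 - 9 * c * w ^ 3) = 0 := by
        have h9 : β * (y * (α * y ^ 2 - 9 * c * w ^ 3)) = 0 := by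
          linear_combination (-2 * α) * hn + (α * y ^ 2 - 3 * c * w ^ 3) * h7
        exact (mul_eq_zero.mp h9).resolve_left hβ
      linear_combination y * hb - h8
    have h10 : w = 0 ∧ y = 0 := by
      rcases mul_eq_zero.mp h6 with h11 | h11
      · rw [h11] at hb
        refine ⟨?_, h11⟩
        have h12 : c * w ^ 3 = 0 := by linear_combination hb
        exact eq_zero_of_pow_eq_zero ((mul_eq_zero.mp h12).resolve_left hc)
      · have h12 : w = 0 := by
          have h13 : c * w ^ 3 = 0 := by
            have : (10 : ℂ) ≠ 0 := by norm_num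
            exact (mul_eq_zero.mp h11).resolve_left this
          exact eq_zero_of_pow_eq_zero ((mul_eq_zero.mp h13).resolve_left hc)
        refine ⟨h12, ?_⟩
        rw [h12] at hb
        have h14 : α * y ^ 2 = 0 := by linear_combination hb
        exact eq_zero_of_pow_eq_zero ((mul_eq_zero.mp h14).resolve_left hα)
    have h11 : b = 0 := by
      rw [h10.2] at hy
      have h12 : (2 * α) * b = 0 := by linear_combination hy
      exact (mul_eq_zero.mp h12).resolve_left (mul_ne_zero two_ne_zero hα)
    funext o
    rcases o with _ | _ | _ | i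
    · exact h10.1
    · exact h10.2
    · exact h11
    · exact congrFun h1 i
  have hlead : ∀ o, Lead (wX ι) (dX ι o) (sysX P a c α β o) (gX P c α β o) := by
    intro o; rcases o with _ | _ | _ | i
    · have h1 : sysX P a c α β none = gX P c α β none + (- (C a * (X none * X (some (some none)) ^ 3))) := by
        simp only [sysX, gX, LX]
        ring
      rw [h1]
      refine (Lead.self (hwg none).wlo).add_hi (wlo_neg (wlo_C_mul _ ?_))
      exact wlo_mono (by change 9 + 1 ≤ 2 + 3 * 3; norm_num) (wlo_mul whw.wlo (wlo_pow whb.wlo 3))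
    · have h1 : sysX P a c α β (some none) = gX P c α β (some none) + (- LX ι a c) := by
        simp only [sysX, gX]
        ring
      rw [h1]
      exact (Lead.self (hwg (some none)).wlo).add_hi (wlo_neg (wlo_mono (by change 3 + 1 ≤ 7; norm_num) (wlo_LX a c)))
    · have h1 : sysX P a c α β (some (some none)) = (rename (exc (Option ι)) (pderiv none P) +
          C c * X none ^ 3 + C α * X (some none) ^ 2) +
          (C (3 * a) * (X none * X (some (some none)) ^ 2) - X (some (some none)) * LX ι a c) := by
        simp only [sysX]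
        ring
      rw [h1]
      refine (((lead_exc (hd none)).add (Lead.self (wlo_C_mul _ (wlo_pow whw.wlo 3)))).add
        (Lead.self (wlo_C_mul _ (wlo_pow why.wlo 2)))).add_hi ?_
      refine wlo_sub (wlo_C_mul _ ?_) ?_
      · exact wlo_mono (by norm_num : 6 + 1 ≤ 2 + 3 * 2) (wlo_mul whw.wlo (wlo_pow whb.wlo 2))
      · exact wlo_mono (by norm_num : 6 + 1 ≤ 3 + 7) (wlo_mul whb.wlo (wlo_LX a c))
    · have h1 : sysX P a c α β (some (some (some i))) = rename (exc (Option ι)) (pderiv (some i) P) +
          (- (X (some (some (some i))) * LX ι a c)) := by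
        simp only [sysX]
        ring
      rw [h1]
      refine (lead_exc (hd (some i))).add_hi (wlo_neg ?_)
      exact wlo_mono (by norm_num : 6 + 1 ≤ 2 + 7) (wlo_mul (whz i).wlo (wlo_LX a c))
  have h4 := wBez hw0 hd0 hwg hg0 hlead
  have h5 : ∏ o, wX ι o = 2 * (3 * (3 * 2 ^ Fintype.card ι)) := by
    rw [Fintype.prod_option, Fintype.prod_option, Fintype.prod_option]
    simp [wX]
  have h6 : ∏ o, dX ι o = 9 * (3 * (6 * 6 ^ Fintype.card ι)) := by
    rw [Fintype.prod_option, Fintype.prod_option, Fintype.prod_option]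
    simp [dX]
  rw [h5, h6] at h4
  have h7 : (6 : ℕ) ^ Fintype.card ι = 2 ^ Fintype.card ι * 3 ^ Fintype.card ι := by
    rw [← mul_pow]
    norm_num
  rw [h7] at h4
  have h8 : 0 < 18 * 2 ^ Fintype.card ι := by positivity
  refine Nat.eq_of_mul_eq_mul_right h8 ?_
  rw [show 18 * 2 ^ Fintype.card ι = 2 * (3 * (3 * 2 ^ Fintype.card ι)) by ring, h4]
  ring

end

end X21

end EY
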