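import Pool.Agent.helper84.EY.X21B

set_option autoImplicit false
set_option linter.unusedSectionVars false
set_option linter.unusedSimpArgs false

/-!
# EY-X21C: the form `X21`, the sheet `y = 0` and the multiplicity
-/

namespace EY

namespace X21

open MvPolynomial

noncomputable section

variable {ι : Type} [Fintype ι] [DecidableEq ι]

/-- `L` in the variables `w, b, z` -/
def LE (ι : Type) (a c : ℂ) : MvPolynomial (Option (Option ι)) ℂ :=
  C a * X (some none) ^ 3 + C (3 * c) * (X none ^ 2 * X (some none))

/-- the gradient of `P + a w b³ + c w³ b` in the variables `w, b, z` -/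
def crX (P : MvPolynomial (Option ι) ℂ) (a c : ℂ) : Option (Option ι) → MvPolynomial (Option (Option ι)) ℂ
  | none => LE ι a c
  | some none => rename some (pderiv none P) + C (3 * a) * (X none * X (some none) ^ 2) + C c * X none ^ 3
  | some (some i) => rename some (pderiv (some i) P)

/-- the system of the sheet `y = 0`, without the factor `L` of the first equation `w L` -/
def sysE (P : MvPolynomial (Option ι) ℂ) (a c : ℂ) : Option (Option ι) → MvPolynomial (Option (Option ι)) ℂ
  | none => X none
  | some j => crX P a c (some j) - X (some j) * LE ι a c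

/-- the special sheet: `P_x - a b³ x` -/
def spX (P : MvPolynomial (Option ι) ℂ) (a : ℂ) : Option ι → MvPolynomial (Option ι) ℂ :=
  fun j => pderiv j P - C a * (X none ^ 3 * X j)

/-- killing `y` -/
def kY (ι : Type) : Option (Option (Option ι)) → Option (Option (Option ι))
  | none => some none
  | some none => none
  | some (some j) => some (some j)

/-- no `y` -/
def jY (ι : Type) : Option (Option ι) → Option (Option (Option ι))
  | none => none
  | some j => some (some j)

theorem mul_sheetA (P : MvPolynomial (Option ι) ℂ) (a c α β : ℂ) :
    mulAt (Ideal.span (Set.range (Function.update (sysX P a c α β) (some none) (X (some none))))) 0 =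
      mulAt (Ideal.span (Set.range (Function.update (sysE P a c) none (X none * LE ι a c)))) 0 := by
  have hI : (X (some none) : MvPolynomial (Option (Option (Option ι))) ℂ) ∈
      Ideal.span (Set.range (Function.update (sysX P a c α β) (some none) (X (some none)))) :=
    Ideal.subset_span ⟨some none, by simp⟩
  rw [mulAt_kill (some none) (jY ι) (kY ι) rfl (by
      intro t; rcases t with _ | t <;> rfl) (by
      intro o; rcases o with _ | _ | j
      · exact Or.inr ⟨none, rfl⟩
      · exact Or.inl rfl
      · exact Or.inr ⟨some j, rfl⟩) _ hI]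
  set κ : MvPolynomial (Option (Option (Option ι))) ℂ →ₐ[ℂ] MvPolynomial (Option (Option ι)) ℂ :=
    aeval (fun o => (kY ι o).elim (0 : MvPolynomial (Option (Option ι)) ℂ) X) with hκ
  have k0 : κ (X none) = X none := by rw [hκ, aeval_X]; rfl
  have ky : κ (X (some none)) = 0 := by rw [hκ, aeval_X]; rfl
  have kx : ∀ j, κ (X (some (some j))) = X (some j) := by intro j; rw [hκ, aeval_X]; rfl
  have kC : ∀ r : ℂ, κ (C r) = C r := by intro r; exact κ.commutes r
  have kL : κ (LX ι a c) = LE ι a c := by
    unfold LX LE
    simp only [map_add, map_mul, map_pow, kC, k0, kx]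
  have kr : ∀ ψ : MvPolynomial (Option ι) ℂ, κ (rename (exc (Option ι)) ψ) = rename some ψ := by
    intro ψ
    rw [rename_eq_aeval some ψ, hκ, aeval_rename]
    rfl
  have e1 : κ (sysX P a c α β none) = - (X none * LE ι a c) := by
    simp only [sysX, map_add, map_sub, map_mul, map_pow, kC, k0, ky, kL]
    ring
  have e2 : ∀ j : Option ι, κ (sysX P a c α β (some (some j))) = sysE P a c (some j) := by
    intro j
    rcases j with _ | i
    · simp only [sysX, sysE, crX, map_add, map_sub, map_mul, map_pow, kC, k0, ky, kL, kx, kr]
      ring
    · simp only [sysX, sysE, crX, map_add, map_sub, map_mul, map_pow, kC, k0, ky, kL, kx, kr]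
  congr 1
  rw [Ideal.map_span, ← Set.range_comp]
  apply le_antisymm
  · rw [Ideal.span_le]
    rintro _ ⟨o, rfl⟩
    rcases o with _ | _ | j
    · change κ (Function.update (sysX P a c α β) (some none) (X (some none)) none) ∈ Ideal.span _
      rw [Function.update_of_ne (by simp), e1]
      exact neg_mem (Ideal.subset_span ⟨none, by simp⟩)
    · change κ (Function.update (sysX P a c α β) (some none) (X (some none)) (some none)) ∈ Ideal.span _
      rw [Function.update_self, ky]
      exact Ideal.zero_mem _
    · change κ (Function.update (sysX P a c α β) (some none) (X (some none)) (some (some j))) ∈ Ideal.span _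
      rw [Function.update_of_ne (by simp), e2]
      exact Ideal.subset_span ⟨some j, by simp⟩
  · rw [Ideal.span_le]
    rintro _ ⟨o, rfl⟩
    rcases o with _ | j
    · have h1 : Function.update (sysE P a c) none (X none * LE ι a c) none =
          - κ (Function.update (sysX P a c α β) (some none) (X (some none)) none) := by
        have hu : Function.update (sysX P a c α β) (some none) (X (some none)) none = sysX P a c α β none :=
          Function.update_of_ne (by simp) _ _
        rw [hu, e1, Function.update_self, neg_neg]
      rw [h1]
      exact neg_mem (Ideal.subset_span ⟨none, rfl⟩)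
    · have h1 : Function.update (sysE P a c) none (X none * LE ι a c) (some j) =
          κ (Function.update (sysX P a c α β) (some none) (X (some none)) (some (some j))) := by
        have hu : Function.update (sysX P a c α β) (some none) (X (some none)) (some (some j)) =
            sysX P a c α β (some (some j)) := Function.update_of_ne (by simp) _ _
        rw [hu, e2]
        exact Function.update_of_ne (by simp) _ _
      rw [h1]
      exact Ideal.subset_span ⟨some (some j), rfl⟩

/-- the sheet `y = w = 0` -/
theorem mul_sheetW (P : MvPolynomial (Option ι) ℂ) (a c : ℂ) :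
    mulAt (Ideal.span (Set.range (sysE P a c))) 0 = mulAt (Ideal.span (Set.range (spX P a))) 0 := by
  have hI : (X none : MvPolynomial (Option (Option ι)) ℂ) ∈ Ideal.span (Set.range (sysE P a c)) :=
    Ideal.subset_span ⟨none, rfl⟩
  rw [mulAt_sheet _ hI]
  have e1 : ∀ j : Option ι, subN 0 (sysE P a c (some j)) = spX P a j := by
    intro j
    have hL : subN 0 (LE ι a c) = C a * X none ^ 3 := by
      unfold LE
      simp only [map_add, map_mul, map_pow, subN_none, subN_some]
      rw [show subN 0 (C a : MvPolynomial (Option (Option ι)) ℂ) = C a from (subN 0).commutes a]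
      ring
    have hC : ∀ r : ℂ, subN 0 (C r : MvPolynomial (Option (Option ι)) ℂ) = C r := fun r => (subN 0).commutes r
    rcases j with _ | i
    · simp only [sysE, crX, spX, map_add, map_sub, map_mul, map_pow, hL, hC, subN_none, subN_some, subN_rename]
      ring
    · simp only [sysE, crX, spX, map_add, map_sub, map_mul, map_pow, hL, hC, subN_none, subN_some, subN_rename]
      ring
  congr 1
  rw [Ideal.map_span, ← Set.range_comp]
  apply le_antisymm
  · rw [Ideal.span_le]
    rintro _ ⟨o, rfl⟩
    rcases o with _ | j
    · change subN 0 (X none) ∈ Ideal.span _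
      rw [subN_none]
      exact Ideal.zero_mem _
    · change subN 0 (sysE P a c (some j)) ∈ Ideal.span _
      rw [e1]
      exact Ideal.subset_span ⟨j, rfl⟩
  · rw [Ideal.span_le]
    rintro _ ⟨j, rfl⟩
    rw [← e1]
    exact Ideal.subset_span ⟨some j, rfl⟩

/-- the sheet `y = L = 0` -/
theorem mul_sheetL {P : MvPolynomial (Option ι) ℂ} (hP : P.IsHomogeneous 4) {a c : ℂ}
    (hF : ∀ p : Option (Option ι) → ℂ, (∀ o, eval p (crX P a c o) = 0) → p = 0) :
    mulAt (Ideal.span (Set.range (Function.update (sysE P a c) none (LE ι a c)))) 0 =
      3 ^ (Fintype.card ι + 2) := by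
  have hI : Ideal.span (Set.range (Function.update (sysE P a c) none (LE ι a c))) =
      Ideal.span (Set.range (crX P a c)) := by
    apply le_antisymm
    · rw [Ideal.span_le]
      rintro _ ⟨o, rfl⟩
      rcases o with _ | j
      · exact Ideal.subset_span ⟨none, by simp [crX]⟩
      · have h3 : Function.update (sysE P a c) none (LE ι a c) (some j) =
            crX P a c (some j) - X (some j) * crX P a c none := by simp [sysE, crX]
        rw [h3]
        exact Ideal.sub_mem _ (Ideal.subset_span ⟨some j, rfl⟩)
          (Ideal.mul_mem_left _ _ (Ideal.subset_span ⟨none, rfl⟩))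
    · rw [Ideal.span_le]
      rintro _ ⟨o, rfl⟩
      have h4 : LE ι a c ∈ Ideal.span (Set.range (Function.update (sysE P a c) none (LE ι a c))) :=
        Ideal.subset_span ⟨none, by simp⟩
      rcases o with _ | j
      · exact h4
      · have h3 : crX P a c (some j) = Function.update (sysE P a c) none (LE ι a c) (some j) +
            X (some j) * LE ι a c := by simp [sysE]
        rw [h3]
        exact Ideal.add_mem _ (Ideal.subset_span ⟨some j, rfl⟩) (Ideal.mul_mem_left _ _ h4)
  rw [hI]
  have hr : ∀ j : Option ι, wh (fun _ : Option (Option ι) => 1) 3 (rename some (pderiv j P)) := by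
    intro j
    rw [rename_eq_aeval]
    have h1 : (pderiv j P).IsHomogeneous 3 := hP.pderiv
    have h2 := wh_of_isHomogeneous h1 1
    rw [one_mul] at h2
    exact wh_aeval (v := fun _ => 1) (fun o => wh_X (fun _ : Option (Option ι) => 1) (some o)) h2
  have hw : ∀ o, wh (fun _ : Option (Option ι) => 1) 1 (X o) := fun o => wh_X (fun _ => 1) o
  have hwg : ∀ o, wh (fun _ : Option (Option ι) => 1) 3 (crX P a c o) := by
    intro o
    rcases o with _ | _ | i
    · refine wh_add (wh_C_mul _ (wh_pow (hw _) 3)) (wh_C_mul _ ?_)
      exact wh_mul (wh_pow (hw _) 2) (hw _)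
    · refine wh_add (wh_add (hr none) (wh_C_mul _ ?_)) (wh_C_mul _ (wh_pow (hw _) 3))
      exact wh_mul (hw _) (wh_pow (hw _) 2)
    · exact hr (some i)
  have h4 := wBez (w := fun _ : Option (Option ι) => 1) (fun _ => one_pos) (d := fun _ => 3) (fun _ => by norm_num)
    hwg hF (f := crX P a c) fun o => Lead.self (hwg o).wlo
  rw [Finset.prod_const, Finset.prod_const, one_pow, mul_one, Finset.card_univ, Fintype.card_option,
    Fintype.card_option] at h4
  exact h4

/-- **the multiplicity of the form `X21`** at `e_u` -/
theorem mul_X21 {P : MvPolynomial (Option ι) ℂ} (hP : P.IsHomogeneous 4)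
    (hz : ∀ z : ι → ℂ, (∀ i, eval (fun o : Option ι => o.elim 0 z) (pderiv (some i) P) = 0) → z = 0)
    {a c α β : ℂ} (hc : c ≠ 0) (hα : α ≠ 0) (hβ : β ≠ 0)
    (hF : ∀ p : Option (Option ι) → ℂ, (∀ o, eval p (crX P a c o) = 0) → p = 0)
    (hS : mulAt (Ideal.span (Set.range (spX P a))) 0 ≠ 0) :
    mulAt (affIdeal (formR (phiX P a c) (RX ι α β)) (gram (Option (Option ι))) (some none)) 0 =
      18 * 3 ^ Fintype.card ι + mulAt (Ideal.span (Set.range (spX P a))) 0 := by
  have h1 : affIdeal (formR (phiX P a c) (RX ι α β)) (gram (Option (Option ι))) (some none) =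
      Ideal.span (Set.range (Function.update (sysX P a c α β) (some none)
        (X (some none) * sysX P a c α β (some none)))) := by
    unfold formR
    rw [affIdeal_subN, chSys_stepX]
  have hA := mul_sheetA P a c α β
  have hW := mul_sheetW P a c
  have hL := mul_sheetL (c := c) hP hF
  have hB := mul_sheetB (a := a) hP hz hc hα hβ
  have hWu : Function.update (sysE P a c) none (X none) = sysE P a c := by
    have : sysE P a c none = X none := rfl
    rw [← this, Function.update_eq_self]
  have h2 := cmAdd (sysE P a c) none (X none) (LE ι a c) (by rw [hWu, hW]; exact hS) (by rw [hL]; positivity)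
  rw [hWu, hW, hL] at h2
  have hBu : Function.update (sysX P a c α β) (some none) (sysX P a c α β (some none)) = sysX P a c α β :=
    Function.update_eq_self _ _
  have h3 := cmAdd (sysX P a c α β) (some none) (X (some none)) (sysX P a c α β (some none)) (by
      rw [hA, h2]
      have : 0 < 3 ^ (Fintype.card ι + 2) := by positivity
      omega) (by rw [hBu, hB]; positivity)
  rw [hBu, hB, hA, h2] at h3
  rw [h1, h3, pow_add]
  ring

end

end X21

end EY
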